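import Pool.Agent.W393.LR.Defs

/-!
Statements of the steps of the proof that every virtually free group has property (LR).
-/

set_option autoImplicit false

namespace Pool.Agent.W393.LR

/-- Relative version of Dunwoody's theorem on nested cuts. -/
def S_REL : Prop :=
  ∀ (G : Type) [Group G] (Z : Subgroup G) (S : Set G), S.Finite →
    Subgroup.closure (S ∪ (Z : Set G)) = ⊤ →
    ∀ X : Set G, AI X → (∀ x, ∀ z ∈ Z, (x * z ∈ X ↔ x ∈ X)) → X.Infinite → Xᶜ.Infinite →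
    ∃ Y : Set G, AI Y ∧ (∀ x, ∀ z ∈ Z, (x * z ∈ Y ↔ x ∈ Y)) ∧ Y.Infinite ∧ Yᶜ.Infinite ∧
      ∀ g, Nested (tr g Y) Y

/-- Finite groups fix a vertex or a midpoint. -/
def S_FIX : Prop :=
  ∀ (G : Type) [Group G] (X : Set G), HSys X → ∀ C : Subgroup G, Finite C →
    ∃ Y ∈ Hs X, (∀ c ∈ C, tr c '' oo X Y = oo X Y) ∨ (∀ c ∈ C, tr c '' mm X Y = mm X Y)

/-- A subgroup of finite index fixes no vertex and no midpoint. -/
def S_NOFIX : Prop :=
  ∀ (G : Type) [Group G] (X : Set G), HSys X → X.Infinite → Xᶜ.Infinite →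
    ∀ N : Subgroup G, N.FiniteIndex → ∀ Y ∈ Hs X,
      (∃ n ∈ N, tr n '' oo X Y ≠ oo X Y) ∧ (∃ n ∈ N, tr n '' mm X Y ≠ mm X Y)

/-- The tree of a nested half space system. -/
def S_TREE : Prop :=
  ∀ (G : Type) [Group G] (X : Set G), HSys X → ∃ T : GTree G,
    (∃ w₀ : T.W, ∀ g : G, g • w₀ = w₀ ↔ ∀ h, (h ∈ X ↔ h * g ∈ X)) ∧
    (∃ v : Fin 3 → T.W, ∀ w, ∃ (i : Fin 3) (g : G), w = g • v i) ∧
    (∀ C : Subgroup G, Finite C → ∃ w : T.W, ∀ c ∈ C, c • w = w) ∧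
    (X.Infinite → Xᶜ.Infinite → ∀ N : Subgroup G, N.FiniteIndex → ∀ w : T.W, ∃ n ∈ N, n • w ≠ w)

/-- Gluing homomorphisms along a tree. -/
def S_GL : Prop :=
  ∀ (G E : Type) [Group G] [Group E] (T : GTree G) (Λ : Subgroup G → (G → E) → Prop),
    (∀ (C : Subgroup G) (θ θ' : G → E), Finite C → HomOn C θ → HomOn C θ' → Λ C θ → Λ C θ' →
      ConjOn C θ θ') →
    (∀ (C C' : Subgroup G) (g : G) (θ : G → E), (∀ x ∈ C', g⁻¹ * x * g ∈ C) → Λ C θ →
      Λ C' (fun x => θ (g⁻¹ * x * g))) →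
    (∀ (C : Subgroup G) (θ θ' : G → E), Λ C θ → ConjOn C θ θ' → Λ C θ') →
    ∀ (w₀ : T.W) (θ : T.W → G → E), (∀ w, HomOn (MulAction.stabilizer G w) (θ w)) →
    (∀ w : T.W, ∀ C : Subgroup G, Finite C → C ≤ MulAction.stabilizer G w → Λ C (θ w)) →
    ∃ Θ : G →* E, (∀ g ∈ MulAction.stabilizer G w₀, Θ g = θ w₀ g) ∧
      ∀ w : T.W, ∀ C : Subgroup G, Finite C → C ≤ MulAction.stabilizer G w → Λ C Θ

/-- Complexity drops on a proper retract of a free group. -/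
def S_CHAR : Prop :=
  ∀ (N : Type) [Group N], IsFreeGroup N → ∀ (A Z : Subgroup N) (r : N →* N),
    (∀ n, r n ∈ A) → (∀ a ∈ A, r a = a) → A ≠ ⊤ → Z ≤ A →
    Finite {χ : N →* ℤˣ // ∀ z ∈ Z, χ z = 1} →
    Nat.card {χ : A →* ℤˣ // ∀ z : A, (z : N) ∈ Z → χ z = 1} <
      Nat.card {χ : N →* ℤˣ // ∀ z ∈ Z, χ z = 1}

/-- The edges (mod 2) on the path from `1` to `n` in the Cayley tree of a free group;
the edge `(x, b)` joins `x` and `x * b`. -/
def S_FGD : Prop :=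
  ∀ (B : Type), ∃ D : FreeGroup B → Set (FreeGroup B × B),
    (∀ n, (D n).Finite) ∧
    (∀ x y e, e ∈ D (x * y) ↔ ¬ (e ∈ D x ↔ (x⁻¹ * e.1, e.2) ∈ D y)) ∧
    (∀ b, D (FreeGroup.of b) = {(1, b)}) ∧
    (∀ (A : Set (FreeGroup B)) (n : FreeGroup B),
      (∀ e ∈ D n, (e.1 ∈ A ↔ e.1 * FreeGroup.of e.2 ∈ A)) → (1 ∈ A ↔ n ∈ A))

/-- `HasSep` passes to subgroups (pull back along an injective homomorphism). -/
def S_RES : Prop :=
  ∀ (G G' : Type) [Group G] [Group G'] (f : G' →* G) (Z : Subgroup G), Function.Injective f →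
    HasSep G Z → HasSep G' (Z.comap f)

/-- `HasSep` passes from `N` to `N Z`. -/
def S_COIND : Prop :=
  ∀ (G : Type) [Group G] (N Z : Subgroup G), N.Normal → N.FiniteIndex → N ⊔ Z = ⊤ →
    HasSep N (Z.subgroupOf N) → HasSep G Z

/-- A finitely generated subgroup of a free group is separated in a subgroup of finite index. -/
def S_MH : Prop :=
  ∀ (B : Type) (M : Subgroup (FreeGroup B)), M.FG → ∃ N₁ : Subgroup (FreeGroup B),
    N₁.FiniteIndex ∧ M ≤ N₁ ∧ HasSep N₁ (M.subgroupOf N₁)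

/-- The same in virtually free groups. -/
def S_MHG : Prop :=
  ∀ (G : Type) [Group G] (N H : Subgroup G), N.Normal → N.FiniteIndex → IsFreeGroup N → H.FG →
    ∃ N₂ : Subgroup G, N₂ ≤ N ∧ N₂.FiniteIndex ∧ (∀ h ∈ H, ∀ n ∈ N₂, h * n * h⁻¹ ∈ N₂) ∧
      HasSep (N₂ ⊔ H : Subgroup G) (H.subgroupOf (N₂ ⊔ H))

/-- An infinite virtually free group has a cut. -/
def S_CUT : Prop :=
  ∀ (G : Type) [Group G] (N : Subgroup G), N.Normal → N.FiniteIndex → IsFreeGroup N → N ≠ ⊥ →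
    ∃ X : Set G, AI X ∧ X.Infinite ∧ Xᶜ.Infinite

/-- Cancellation. -/
def S_CANCEL : Prop :=
  ∀ (H J : Type) [Group H] (C : Subgroup H) (θ θ' : H → Wr H J) (p : H → Wr H (Option J)),
    ConjOn C (fun c => extW c (θ c)) p → ConjOn C (fun c => extW c (θ' c)) p → ConjOn C θ θ'

/-- Compensation for finite groups. -/
def S_CPBASE : Prop :=
  ∀ (H Q : Type) [Group H] [Group Q] (q : H →* Q), Finite Q → Function.Injective q → CP H Q q

/-- Making the compensations of finitely many subgroups simultaneous. -/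
def S_CPCOMB : Prop :=
  ∀ (H Q : Type) [Group H] [Group Q] (q : H →* Q) (L : Fin 3 → Subgroup H),
    (∀ i, CP (L i) Q (q.comp (L i).subtype)) →
    ∃ (J : Type) (_ : Finite J) (π : Q →* Wr H (Option J)), ∀ i, ∃ θ : H → Wr H J,
      HomOn (L i) θ ∧ ∀ C : Subgroup H, Finite C → C ≤ L i →
        ConjOn C (fun c => extW c (θ c)) (fun c => π (q c))

/-- Compensation for finitely generated virtually free groups. -/
def S_CPALL : Prop :=
  ∀ (H Q : Type) [Group H] [Group Q] (q : H →* Q), Finite Q → IsFreeGroup q.ker → Group.FG H →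
    CP H Q q

/-- The extension theorem, relatively finitely generated case. -/
def S_R : Prop :=
  ∀ (G : Type) [Group G] (N Z : Subgroup G), N.Normal → N.FiniteIndex → IsFreeGroup N →
    Infinite Z → N ⊔ Z = ⊤ → HasSep G Z →
    (∃ S : Set G, S.Finite ∧ S ⊆ (N : Set G) ∧
      N ≤ Subgroup.closure (S ∪ ((N ⊓ Z : Subgroup G) : Set G))) →
    ExtProp G Z

/-- The extension theorem. -/
def S_INF : Prop :=
  ∀ (G : Type) [Group G] (N H : Subgroup G), N.Normal → N.FiniteIndex → IsFreeGroup N →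
    H.FG → Infinite H → N ⊔ H = ⊤ → HasSep G H → ExtProp G H

/-- Virtual retraction onto `H`. -/
def VR (G : Type) [Group G] (H : Subgroup G) : Prop :=
  ∃ K : Subgroup G, K.FiniteIndex ∧ H ≤ K ∧
    ∃ ρ : K →* G, (∀ k : K, ρ k ∈ H) ∧ ∀ h : G, ∀ hk : h ∈ K, h ∈ H → ρ ⟨h, hk⟩ = h

/-- The case of a finite subgroup. -/
def S_FINH : Prop :=
  ∀ (G : Type) [Group G] (N H : Subgroup G), N.Normal → N.FiniteIndex → IsFreeGroup N →
    Finite H → VR G H

/-- The case `G = N H`. -/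
def S_NH : Prop :=
  ∀ (G : Type) [Group G] (N H : Subgroup G), N.Normal → N.FiniteIndex → IsFreeGroup N →
    H.FG → Infinite H → N ⊔ H = ⊤ → HasSep G H → VR G H

/-- The final statement. -/
def S_MAIN : Prop :=
  ∀ (G : Type) [Group G], (∃ F : Subgroup G, F.FiniteIndex ∧ IsFreeGroup F) →
    ∀ H : Subgroup G, H.FG → VR G H

end Pool.Agent.W393.LR
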