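import Pool.Agent.W393.LR.ThmR
import Pool.Agent.W358.LRWr

/-! The compensation property of finitely generated virtually free groups. -/

set_option autoImplicit false
set_option linter.unusedSectionVars false

namespace Pool.Agent.W393.LR

open MulAction

theorem extW_mul {H J : Type} [Group H] (h h' : H) (w w' : Wr H J) :
    extW (h * h') (w * w') = extW h w * extW h' w' :=
  Pool.Agent.W358.LR.extW_mul h h' w w'

theorem extW_one {H J : Type} [Group H] : extW (1 : H) (1 : Wr H J) = 1 := by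
  have := extW_mul (1 : H) 1 (1 : Wr H J) 1
  rw [mul_one, mul_one] at this
  exact mul_eq_left.mp this.symm

theorem extW_inv {H J : Type} [Group H] (h : H) (w : Wr H J) :
    extW h⁻¹ w⁻¹ = (extW h w)⁻¹ := by
  rw [eq_inv_iff_mul_eq_one, ← extW_mul, inv_mul_cancel, inv_mul_cancel, extW_one]

/-- A group with a finitely generated subgroup of finite index is finitely generated. -/
theorem fg_of_sub {L : Type} [Group L] (A : Subgroup L) (hA : A.FiniteIndex) (h : A.FG) :
    Group.FG L := by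
  refine ⟨?_⟩
  have : Finite (L ⧸ A) := inferInstance
  have h2 : (Subgroup.closure (Set.range (fun q : L ⧸ A => q.out))).FG := by
    rw [Subgroup.fg_iff]
    exact ⟨_, rfl, Set.finite_range _⟩
  have h3 : Subgroup.closure (Set.range (fun q : L ⧸ A => q.out)) ⊔ A = ⊤ := by
    rw [eq_top_iff]
    intro x _
    have e1 : x = (QuotientGroup.mk x : L ⧸ A).out * ((QuotientGroup.mk x : L ⧸ A).out⁻¹ * x) := by
      group
    rw [e1]
    refine Subgroup.mul_mem_sup (Subgroup.subset_closure ⟨_, rfl⟩) ?_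
    rw [← QuotientGroup.eq]
    exact QuotientGroup.out_eq' _
  rw [← h3]
  exact h2.sup h

theorem lam_tr {H J Q : Type} [Group H] [Group Q] (q : H →* Q) (π : Q →* Wr H (Option J))
    (C C' : Subgroup H) (g : H) (θ : H → Wr H J) (hC : ∀ x ∈ C', g⁻¹ * x * g ∈ C)
    (h : ConjOn C (fun c => extW c (θ c)) (fun c => π (q c))) :
    ConjOn C' (fun c => extW c (θ (g⁻¹ * c * g))) (fun c => π (q c)) := by
  obtain ⟨ε, hε⟩ := h
  refine ⟨π (q g) * ε * (extW g 1)⁻¹, fun x hx => ?_⟩
  have e1 := hε _ (hC x hx)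
  simp only at e1 ⊢
  have e2 : π (q x) = π (q g) * π (q (g⁻¹ * x * g)) * (π (q g))⁻¹ := by
    simp only [map_mul, map_inv]; group
  have e3 : extW x (θ (g⁻¹ * x * g)) =
      extW g 1 * extW (g⁻¹ * x * g) (θ (g⁻¹ * x * g)) * (extW g 1)⁻¹ := by
    rw [← extW_inv, ← extW_mul, ← extW_mul]
    congr 1
    · group
    · rw [one_mul, inv_one, mul_one]
  rw [e2, e1, e3]
  group

theorem cp_tree (hT : S_TREE) (hCut : S_CUT) {H : Type} [Group H] (hfg : Group.FG H)
    (N : Subgroup H) (h1 : N.Normal) (h2 : N.FiniteIndex) (h3 : IsFreeGroup N) (h4 : N ≠ ⊥) :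
    ∃ T : GTree H, (∃ v : Fin 3 → T.W, ∀ w, ∃ (i : Fin 3) (g : H), w = g • v i) ∧
      (∀ C : Subgroup H, Finite C → ∃ w : T.W, ∀ c ∈ C, c • w = w) ∧
      (∀ w : T.W, ∃ n ∈ N, n • w ≠ w) := by
  obtain ⟨X, hX1, hX2, hX3⟩ := hCut H N h1 h2 h3 h4
  obtain ⟨S, hS1, hS2⟩ := Group.fg_iff.mp hfg
  obtain ⟨Y, hY1, -, hY3, hY4, hY5⟩ := rel H ⊥ S hS2 (by
    rw [eq_top_iff, ← hS1]
    exact Subgroup.closure_mono Set.subset_union_left) X hX1 (by
    intro x z hz
    rw [Subgroup.mem_bot] at hz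
    rw [hz, mul_one]) hX2 hX3
  have hsys : HSys Y := by
    refine ⟨?_, hY3.nonempty, hY4.nonempty, hY5⟩
    intro a b
    refine ((hY1 (a⁻¹ * b)).image (fun x => a * x⁻¹)).subset ?_
    rintro k ⟨h1, h2⟩
    refine ⟨k⁻¹ * a, ?_, by group⟩
    intro hc
    apply h2
    have := hc.mp h1
    rwa [mul_assoc, mul_inv_cancel_left] at this
  obtain ⟨T, -, hv, hfix, hno⟩ := hT H Y hsys
  exact ⟨T, hv, hfix, hno hY3 hY4 N h2⟩

theorem cp_aux (hT : S_TREE) (hCh : S_CHAR) (hCut : S_CUT) (hCan : S_CANCEL) (hB : S_CPBASE)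
    (hC : S_CPCOMB) (n : ℕ) :
    ∀ (H Q : Type) [Group H] [Group Q] (q : H →* Q), Finite Q → IsFreeGroup q.ker → Group.FG H →
      Nat.card {χ : q.ker →* ℤˣ // ∀ z ∈ (⊥ : Subgroup q.ker), χ z = 1} = n → CP H Q q := by
  classical
  induction n using Nat.strong_induction_on with
  | _ n ih =>
  intro H Q _ _ q hQ hfree hfg hn
  by_cases hb : q.ker = ⊥
  · exact hB H Q q hQ ((MonoidHom.ker_eq_bot_iff q).mp hb)
  have hfi : q.ker.FiniteIndex := inferInstance
  obtain ⟨T, ⟨v, hv⟩, hfix, hno⟩ := cp_tree hT hCut hfg q.ker inferInstance hfi hfree hb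
  have hNfg : Group.FG q.ker := Subgroup.fg_of_index_ne_zero _
  obtain ⟨S, hS1, hS2⟩ := Group.fg_iff.mp hNfg
  have hfin : Finite {χ : q.ker →* ℤˣ // ∀ z ∈ (⊥ : Subgroup q.ker), χ z = 1} :=
    finite_ch ⊥ S hS2 (by
      rw [eq_top_iff, ← hS1]
      exact Subgroup.closure_mono Set.subset_union_left)
  have hL : ∀ i, CP (stabilizer H (v i)) Q (q.comp (stabilizer H (v i)).subtype) := by
    intro i
    let L := stabilizer H (v i)
    obtain ⟨r, hr1, hr2⟩ := retract (free_tf hfree) (T.restrict q.ker) (v i)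
    let A : Subgroup q.ker := L.subgroupOf q.ker
    have hr1' : ∀ n, r n ∈ A := hr1
    have hr2' : ∀ n ∈ A, r n = n := hr2
    have hAtop : A ≠ ⊤ := by
      intro hA
      obtain ⟨n, hn, hne⟩ := hno (v i)
      have : (⟨n, hn⟩ : q.ker) ∈ A := by rw [hA]; trivial
      exact hne this
    have hcard := hCh q.ker hfree A ⊥ r hr1' hr2' hAtop bot_le hfin
    let e : (q.comp L.subtype).ker ≃* A :=
      { toFun := fun x => ⟨⟨x.1.1, x.2⟩, x.1.2⟩
        invFun := fun x => ⟨⟨x.1.1, x.2⟩, x.1.2⟩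
        left_inv := fun _ => rfl
        right_inv := fun _ => rfl
        map_mul' := fun _ _ => rfl }
    have hAfree : IsFreeGroup A := subgroupIsFreeOfIsFree A
    have hAfg : Group.FG A := by
      let ρ : q.ker →* A :=
        { toFun := fun n => ⟨r n, hr1' n⟩
          map_one' := Subtype.ext (map_one r)
          map_mul' := fun a b => Subtype.ext (map_mul r a b) }
      have hρ : Function.Surjective ρ := fun x => ⟨x.1, Subtype.ext (hr2' x.1 x.2)⟩
      exact Group.fg_of_surjective hρ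
    have hker : Group.FG (q.comp L.subtype).ker := by
      exact Group.fg_of_surjective (f := e.symm.toMonoidHom) e.symm.surjective
    refine ih _ ?_ L Q (q.comp L.subtype) hQ (IsFreeGroup.ofMulEquiv e.symm)
      (fg_of_sub (q.comp L.subtype).ker inferInstance ((Group.fg_iff_subgroup_fg _).mp hker)) rfl
    rw [← hn]
    refine lt_of_eq_of_lt ?_ hcard
    refine Nat.card_congr
      { toFun := fun χ => ⟨χ.1.comp e.symm.toMonoidHom, fun z hz => ?_⟩
        invFun := fun χ => ⟨χ.1.comp e.toMonoidHom, fun z hz => ?_⟩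
        left_inv := fun χ => rfl
        right_inv := fun χ => rfl }
    · have : z = 1 := Subtype.ext hz
      rw [this, map_one]
    · have : z = 1 := hz
      rw [this, map_one]
  obtain ⟨J, hJ, π, hθ⟩ := hC H Q q (fun i => stabilizer H (v i)) hL
  choose θ hθ1 hθ2 using hθ
  choose ix g hg using hv
  obtain ⟨Θ, -, hΘ⟩ := gl H (Wr H J) T
    (fun C θ => ConjOn C (fun c => extW c (θ c)) (fun c => π (q c)))
    (by
      intro C θ₁ θ₂ _ _ _ h1 h2
      exact hCan H J C θ₁ θ₂ _ h1 h2)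
    (by
      intro C C' k θ₁ hCC' h
      exact lam_tr q π C C' k θ₁ hCC' h)
    (by
      rintro C θ₁ θ₂ ⟨ε, hε⟩ ⟨ε', hε'⟩
      refine ⟨ε * (extW 1 ε')⁻¹, fun c hc => ?_⟩
      have e1 : extW c (θ₂ c) = extW 1 ε' * extW c (θ₁ c) * (extW 1 ε')⁻¹ := by
        rw [← extW_inv, ← extW_mul, ← extW_mul, hε' c hc]
        congr 1
        group
      have e2 := hε c hc
      simp only at e2 ⊢
      rw [e2, e1]
      group) (v 0) (fun w x => θ (ix w) ((g w)⁻¹ * x * g w))
    (by
      intro w x hx y hy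
      have key : ∀ x ∈ stabilizer H w, (g w)⁻¹ * x * g w ∈ stabilizer H (v (ix w)) := by
        intro x hx
        rw [mem_stabilizer_iff] at hx ⊢
        rw [mul_smul, mul_smul, ← hg w, hx, inv_smul_eq_iff]
        exact hg w
      have e1 : (g w)⁻¹ * (x * y) * g w = ((g w)⁻¹ * x * g w) * ((g w)⁻¹ * y * g w) := by group
      change θ (ix w) _ = _
      rw [e1]
      exact hθ1 (ix w) _ (key x hx) _ (key y hy))
    (by
      intro w C hCf hle
      let C' : Subgroup H := C.map (MulAut.conj (g w)⁻¹).toMonoidHom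
      have hC' : Finite C' := by
        have : Finite (C : Set H) := hCf
        exact (Set.toFinite ((MulAut.conj (g w)⁻¹).toMonoidHom '' (C : Set H))).to_subtype
      refine lam_tr q π C' C (g w) (θ (ix w)) ?_ (hθ2 (ix w) C' hC' ?_)
      · intro x hx
        refine ⟨x, hx, ?_⟩
        simp only [MulEquiv.coe_toMonoidHom, MulAut.conj_apply, inv_inv]
      · rintro _ ⟨x, hx, rfl⟩
        simp only [MulEquiv.coe_toMonoidHom, MulAut.conj_apply, inv_inv, mem_stabilizer_iff]
        have := mem_stabilizer_iff.mp (hle hx)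
        rw [mul_smul, mul_smul, ← hg w, this, inv_smul_eq_iff]
        exact hg w)
  refine ⟨J, hJ, π, Θ, fun C hCf => ?_⟩
  obtain ⟨w, hw⟩ := hfix C hCf
  exact hΘ w C hCf hw

theorem cpall (hT : S_TREE) (hCh : S_CHAR) (hCut : S_CUT) (hCan : S_CANCEL) (hB : S_CPBASE)
    (hC : S_CPCOMB) : S_CPALL := by
  intro H Q _ _ q hQ hfree hfg
  exact cp_aux hT hCh hCut hCan hB hC _ H Q q hQ hfree hfg rfl

end Pool.Agent.W393.LR
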