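import Pool.Agent.W393.LR.Stmts

/-! Assembly. -/

set_option autoImplicit false
set_option linter.unusedSectionVars false

namespace Pool.Agent.W393.LR

theorem main (hM : S_MHG) (hNH : S_NH) (hF : S_FINH) : S_MAIN := by
  intro G _ ⟨F, hFi, hFf⟩ H hH
  let N := F.normalCore
  have hNfi : N.FiniteIndex := inferInstance
  have hNF : N ≤ F := F.normalCore_le
  have hNfree : IsFreeGroup N := by
    have : IsFreeGroup (N.subgroupOf F) := subgroupIsFreeOfIsFree _
    exact IsFreeGroup.ofMulEquiv (Subgroup.subgroupOfEquivOfLe hNF)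
  by_cases hfin : Finite H
  · exact hF G N H inferInstance hNfi hNfree hfin
  have hinf : Infinite H := not_finite_iff_infinite.mp hfin
  obtain ⟨N₂, h1, h2, h3, h4⟩ := hM G N H inferInstance hNfi hNfree hH
  let G₁ : Subgroup G := N₂ ⊔ H
  have hN₂G : N₂ ≤ G₁ := le_sup_left
  have hHG : H ≤ G₁ := le_sup_right
  have hnorm : G₁ ≤ Subgroup.normalizer (N₂ : Set G) := by
    refine sup_le Subgroup.le_normalizer ?_
    intro h hh
    rw [Subgroup.mem_normalizer_iff]
    intro n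
    constructor
    · intro hn
      exact h3 h hh n hn
    · intro hn
      have := h3 h⁻¹ (inv_mem hh) _ hn
      have e : h⁻¹ * (h * n * h⁻¹) * h⁻¹⁻¹ = n := by group
      rwa [e] at this
  have hnor : (N₂.subgroupOf G₁).Normal := by
    constructor
    intro n hn g
    have := (Subgroup.mem_normalizer_iff.mp (hnorm g.2) n.1).mp hn
    exact this
  have hfree₂ : IsFreeGroup (N₂.subgroupOf G₁) := by
    have h5 : IsFreeGroup (N₂.subgroupOf N) := subgroupIsFreeOfIsFree _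
    have h6 : IsFreeGroup N₂ := IsFreeGroup.ofMulEquiv (Subgroup.subgroupOfEquivOfLe h1)
    exact IsFreeGroup.ofMulEquiv (Subgroup.subgroupOfEquivOfLe hN₂G).symm
  have hHfg : (H.subgroupOf G₁).FG := by
    have h5 : Group.FG H := (Group.fg_iff_subgroup_fg H).mpr hH
    have h6 : Group.FG (H.subgroupOf G₁) := Group.fg_of_surjective
      (f := (Subgroup.subgroupOfEquivOfLe hHG).symm.toMonoidHom)
      (Subgroup.subgroupOfEquivOfLe hHG).symm.surjective
    exact (Group.fg_iff_subgroup_fg _).mp h6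
  have hHinf : Infinite (H.subgroupOf G₁) :=
    (Subgroup.subgroupOfEquivOfLe hHG).toEquiv.symm.infinite_iff.mp hinf
  have hsup : N₂.subgroupOf G₁ ⊔ H.subgroupOf G₁ = ⊤ := by
    rw [← Subgroup.subgroupOf_sup hN₂G hHG, Subgroup.subgroupOf_self]
  obtain ⟨K₁, hK1, hK2, ρ, hρ1, hρ2⟩ := hNH G₁ (N₂.subgroupOf G₁) (H.subgroupOf G₁) hnor
    inferInstance hfree₂ hHfg hHinf hsup h4
  have hG₁ : G₁.FiniteIndex := Subgroup.finiteIndex_of_le hN₂G
  let K : Subgroup G := K₁.map G₁.subtype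
  let e : K₁ ≃* K := K₁.equivMapOfInjective G₁.subtype (Subgroup.subtype_injective _)
  refine ⟨K, ?_, ?_, G₁.subtype.comp (ρ.comp e.symm.toMonoidHom), ?_, ?_⟩
  · constructor
    rw [Subgroup.index_map_subtype]
    exact mul_ne_zero hK1.index_ne_zero hG₁.index_ne_zero
  · intro h hh
    exact ⟨⟨h, hHG hh⟩, hK2 hh, rfl⟩
  · intro k
    exact hρ1 (e.symm k)
  · rintro h ⟨⟨h', hh'⟩, hk, rfl⟩ hh
    have e1 : e.symm ⟨h', ⟨⟨h', hh'⟩, hk, rfl⟩⟩ = ⟨⟨h', hh'⟩, hk⟩ := by
      rw [MulEquiv.symm_apply_eq]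
      rfl
    have := hρ2 ⟨h', hh'⟩ hk hh
    change (ρ (e.symm ⟨h', _⟩)).1 = h'
    rw [e1, this]

end Pool.Agent.W393.LR
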