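import Pool.Agent.W393.LR.HSBasic

/-! The tree of a nested half space system. -/

set_option autoImplicit false
set_option linter.unusedSectionVars false

namespace Pool.Agent.W393.LR

variable {G : Type} [Group G] {X : Set G}

theorem cp1 {Y Z : Set G} (h : Yᶜ ⊂ Z) : Zᶜ ⊂ Y := by
  have : Zᶜ < Yᶜᶜ := compl_lt_compl_iff_lt.mpr h
  rwa [compl_compl] at this

theorem cp2 {Y Z : Set G} (h : Y ⊂ Zᶜ) : Z ⊂ Yᶜ := by
  have : Zᶜᶜ < Yᶜ := compl_lt_compl_iff_lt.mpr h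
  rwa [compl_compl] at this

theorem oo_adj_sub (hX : HSys X) {Y Y' : Set G} (hY : Y ∈ Hs X) (hY' : Y' ∈ Hs X) (h : Y ⊂ Y')
    (hno : ∀ Z ∈ Hs X, Y ⊂ Z → ¬ Z ⊂ Y') : oo X Y' ⊆ oo X Yᶜ := by
  rintro Z ⟨hZ, hc⟩
  refine ⟨hZ, ?_⟩
  rw [compl_compl]
  rcases hc with hc | hc
  · exact Or.inr (h.trans_subset hc)
  · rcases hX.nested (hs_compl hY) hZ with h1 | h1 | h1 | h1
    · exact Or.inl h1
    · left
      have h2 : Y ⊆ Zᶜ := Set.subset_compl_comm.mp h1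
      have h3 : Zᶜ ⊂ Y' := cp1 hc
      have h4 : Y = Zᶜ := by
        by_contra hne
        exact hno _ (hs_compl hZ) (h2.ssubset_of_ne hne) h3
      rw [h4, compl_compl]
    · exfalso
      obtain ⟨a, ha⟩ := hX.nonempty (hs_compl hY')
      exact ha (h.subset (Set.compl_subset_compl.mp h1 (hc.subset ha)))
    · right
      rw [compl_compl] at h1
      refine h1.ssubset_of_ne ?_
      rintro rfl
      obtain ⟨a, ha⟩ := hX.nonempty (hs_compl hY')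
      exact ha (h.subset (hc.subset ha))

/-- The root. -/
def rt (X : Set G) : Set (Set G) := {Y | Y ∈ Hs X ∧ (1 : G) ∈ Y}

theorem oo_self {Y : Set G} (hY : Y ∈ Hs X) : Y ∈ oo X Y := ⟨hY, Or.inl subset_rfl⟩

theorem oo_ne_rt {Y : Set G} (hY : Y ∈ Hs X) (h1 : (1 : G) ∉ Y) : oo X Y ≠ rt X := by
  intro h
  have := oo_self hY
  rw [h] at this
  exact h1 this.2

theorem oo_inj {Y Y' : Set G} (hY : Y ∈ Hs X) (hY' : Y' ∈ Hs X) (h1 : (1 : G) ∉ Y)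
    (h1' : (1 : G) ∉ Y') (h : oo X Y = oo X Y') : Y = Y' := by
  have a : Y' ⊆ Y := by
    have := oo_self hY
    rw [h] at this
    rcases this.2 with h2 | h2
    · exact h2
    · exact absurd (h2.subset h1') h1
  have b : Y ⊆ Y' := by
    have := oo_self hY'
    rw [← h] at this
    rcases this.2 with h2 | h2
    · exact h2
    · exact absurd (h2.subset h1) h1'
  exact b.antisymm a

theorem oo_not_both (hX : HSys X) {Y Z : Set G} (hY : Y ∈ Hs X) (h : Z ∈ oo X Y)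
    (h' : Zᶜ ∈ oo X Y) : False := by
  obtain ⟨a, ha⟩ := hX.nonempty hY
  obtain ⟨b, hb⟩ := hX.nonempty (hs_compl hY)
  rcases h.2 with h1 | h1 <;> rcases h'.2 with h2 | h2
  · exact h2 ha (h1 ha)
  · have : Z ⊆ Y := Set.compl_subset_compl.mp h2.subset
    exact h2.2 (Set.compl_subset_compl.mpr h1)
  · have : Z ⊆ Yᶜ := Set.subset_compl_comm.mp h2
    exact h1.2 this
  · exact h2.subset hb (h1.subset hb)

theorem mm_self {Y : Set G} (hY : Y ∈ Hs X) : Y ∈ mm X Y := ⟨hY, Or.inl subset_rfl⟩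

theorem mm_self' {Y : Set G} (hY : Y ∈ Hs X) : Yᶜ ∈ mm X Y := ⟨hs_compl hY, Or.inr subset_rfl⟩

theorem oo_ne_mm (hX : HSys X) {Y Y' : Set G} (hY : Y ∈ Hs X) (hY' : Y' ∈ Hs X) :
    oo X Y ≠ mm X Y' := by
  intro h
  have h1 := mm_self hY'
  have h2 := mm_self' hY'
  rw [← h] at h1 h2
  exact oo_not_both hX hY h1 h2

theorem mm_both (hX : HSys X) {Y Z : Set G} (hY : Y ∈ Hs X) (h : Z ∈ mm X Y)
    (h' : Zᶜ ∈ mm X Y) : Z = Y ∨ Z = Yᶜ := by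
  obtain ⟨a, ha⟩ := hX.nonempty hY
  obtain ⟨b, hb⟩ := hX.nonempty (hs_compl hY)
  rcases h.2 with h1 | h1 <;> rcases h'.2 with h2 | h2
  · exact (h2 ha (h1 ha)).elim
  · exact Or.inl ((Set.compl_subset_compl.mp h2).antisymm h1)
  · exact Or.inr ((Set.subset_compl_comm.mp h2).antisymm h1)
  · exact (h2 hb (h1 hb)).elim

theorem mm_inj (hX : HSys X) {Y Y' : Set G} (hY : Y ∈ Hs X) (hY' : Y' ∈ Hs X) (h1 : (1 : G) ∉ Y)
    (h1' : (1 : G) ∉ Y') (h : mm X Y = mm X Y') : Y = Y' := by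
  have h2 := mm_self hY
  have h3 := mm_self' hY
  rw [h] at h2 h3
  rcases mm_both hX hY' h2 h3 with h4 | h4
  · exact h4
  · rw [h4] at h1
    exact absurd h1' (fun hc => h1 hc)

theorem finite_above (hX : HSys X) {Y : Set G} (hY : Y ∈ Hs X) :
    {Z | Z ∈ Hs X ∧ Y ⊆ Z ∧ (1 : G) ∉ Z}.Finite := by
  obtain ⟨a, ha⟩ := hX.nonempty hY
  refine (hX.finite_sep a 1).subset ?_
  rintro Z ⟨h1, h2, h3⟩
  exact ⟨h1, h2 ha, h3⟩

theorem parent (hX : HSys X) {Y : Set G} (hY : Y ∈ Hs X) (h1 : (1 : G) ∉ Y) :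
    oo X Yᶜ = rt X ∨ ∃ Y' ∈ Hs X, (1 : G) ∉ Y' ∧ Y ⊂ Y' ∧ oo X Y' = oo X Yᶜ := by
  rcases Set.eq_empty_or_nonempty {Z | Z ∈ Hs X ∧ Y ⊂ Z ∧ (1 : G) ∉ Z} with he | hne
  · left
    have hem : ∀ Z ∈ Hs X, Y ⊂ Z → (1 : G) ∈ Z := by
      intro Z hZ hYZ
      by_contra hc
      have : Z ∈ {Z | Z ∈ Hs X ∧ Y ⊂ Z ∧ (1 : G) ∉ Z} := ⟨hZ, hYZ, hc⟩
      rw [he] at this
      exact this
    ext Z
    constructor
    · rintro ⟨hZ, h2 | h2⟩
      · exact ⟨hZ, h2 h1⟩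
      · rw [compl_compl] at h2
        exact ⟨hZ, hem Z hZ h2⟩
    · rintro ⟨hZ, h2⟩
      refine ⟨hZ, ?_⟩
      rw [compl_compl]
      rcases hX.nested (hs_compl hY) hZ with h3 | h3 | h3 | h3
      · exact Or.inl h3
      · left
        have h4 : Y ⊆ Zᶜ := Set.subset_compl_comm.mp h3
        by_cases h5 : Y = Zᶜ
        · rw [h5, compl_compl]
        · exact absurd h2 (hem _ (hs_compl hZ) (h4.ssubset_of_ne h5))
      · exact absurd h2 (h3 h1)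
      · right
        rw [compl_compl] at h3
        refine h3.ssubset_of_ne ?_
        rintro rfl
        exact h1 h2
  · right
    have hfin : {Z | Z ∈ Hs X ∧ Y ⊂ Z ∧ (1 : G) ∉ Z}.Finite :=
      (finite_above hX hY).subset fun Z hZ => ⟨hZ.1, hZ.2.1.subset, hZ.2.2⟩
    obtain ⟨Y', hm⟩ := hfin.exists_minimal hne
    obtain ⟨hY', hYY', h1'⟩ := hm.prop
    have hno : ∀ Z ∈ Hs X, Y ⊂ Z → ¬ Z ⊂ Y' := by
      intro Z hZ h2 h3
      exact h3.2 (hm.2 ⟨hZ, h2, fun hc => h1' (h3.subset hc)⟩ h3.subset)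
    refine ⟨Y', hY', h1', hYY', (oo_adj_sub hX hY hY' hYY' hno).antisymm ?_⟩
    have := oo_adj_sub hX (hs_compl hY') (hs_compl hY) (compl_lt_compl_iff_lt.mpr hYY') (by
      intro Z hZ h2 h3
      exact hno Zᶜ (hs_compl hZ) (cp2 h3) (cp1 h2))
    rwa [compl_compl] at this

/-- Labels of the non-root vertices. -/
abbrev Lab (X : Set G) : Type := {Y : Set G // Y ∈ Hs X ∧ (1 : G) ∉ Y}

theorem lab_wf (hX : HSys X) : WellFounded (fun a b : Lab X => b.1 ⊂ a.1) := by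
  have : Subrelation (fun a b : Lab X => b.1 ⊂ a.1)
      (measure (fun a : Lab X => {Z | Z ∈ Hs X ∧ a.1 ⊆ Z ∧ (1 : G) ∉ Z}.ncard)).rel := by
    intro a b h
    refine Set.ncard_lt_ncard ?_ (finite_above hX b.2.1)
    refine ⟨fun Z hZ => ⟨hZ.1, h.subset.trans hZ.2.1, hZ.2.2⟩, fun hc => ?_⟩
    exact h.2 (hc ⟨b.2.1, subset_rfl, b.2.2⟩ : b.1 ∈ _).2.1
  exact this.wf (measure _).wf

theorem rt_eq (hX : HSys X) : ∃ Y ∈ Hs X, rt X = oo X Y := by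
  have key : ∀ Y : Lab X, ∃ Y ∈ Hs X, rt X = oo X Y := by
    intro Y
    induction Y using (lab_wf hX).induction with
    | _ Y ih =>
      rcases parent hX Y.2.1 Y.2.2 with h | ⟨Y', h1, h2, h3, h4⟩
      · exact ⟨_, hs_compl Y.2.1, h.symm⟩
      · exact ih ⟨Y', h1, h2⟩ h3
  by_cases h : (1 : G) ∈ X
  · exact key ⟨Xᶜ, hs_compl hs_self, fun hc => hc h⟩
  · exact key ⟨X, hs_self, h⟩

/-- Flatness, on the level of sets. -/
theorem flat_core (hX : HSys X) (E : Type) [Group E] (ε : Set G → E) :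
    ∃ σ : Set (Set G) → E, ∀ Y ∈ Hs X, σ (mm X Y) = ε Y * σ (oo X Y) := by
  classical
  have hwf := lab_wf hX
  let par : Lab X → Prop := fun Y => ∃ Y' : Lab X, Y.1 ⊂ Y'.1 ∧ oo X Y'.1 = oo X Y.1ᶜ
  let F : (Y : Lab X) → ((Y' : Lab X) → Y.1 ⊂ Y'.1 → E) → E := fun Y ih =>
    (ε Y.1)⁻¹ * ε (Y.1ᶜ) * (if h : par Y then ih h.choose h.choose_spec.1 else 1)
  let τ : Lab X → E := hwf.fix F
  have hτ : ∀ Y : Lab X, τ Y = (ε Y.1)⁻¹ * ε (Y.1ᶜ) * (if h : par Y then τ h.choose else 1) :=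
    fun Y => hwf.fix_eq F Y
  let σ : Set (Set G) → E := fun O =>
    if h : ∃ Y : Lab X, oo X Y.1 = O then τ h.choose
    else if h : ∃ Y : Lab X, mm X Y.1 = O then ε h.choose.1 * τ h.choose
    else 1
  have hσ1 : ∀ Y : Lab X, σ (oo X Y.1) = τ Y := by
    intro Y
    have h : ∃ Y' : Lab X, oo X Y'.1 = oo X Y.1 := ⟨Y, rfl⟩
    simp only [σ, dif_pos h]
    congr 1
    exact Subtype.ext (oo_inj h.choose.2.1 Y.2.1 h.choose.2.2 Y.2.2 h.choose_spec)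
  have hσ2 : ∀ Y : Lab X, σ (mm X Y.1) = ε Y.1 * τ Y := by
    intro Y
    have h0 : ¬ ∃ Y' : Lab X, oo X Y'.1 = mm X Y.1 := by
      rintro ⟨Y', h⟩
      exact oo_ne_mm hX Y'.2.1 Y.2.1 h
    have h : ∃ Y' : Lab X, mm X Y'.1 = mm X Y.1 := ⟨Y, rfl⟩
    simp only [σ, dif_neg h0, dif_pos h]
    have : h.choose = Y :=
      Subtype.ext (mm_inj hX h.choose.2.1 Y.2.1 h.choose.2.2 Y.2.2 h.choose_spec)
    rw [this]
  have hσ3 : σ (rt X) = 1 := by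
    have h0 : ¬ ∃ Y' : Lab X, oo X Y'.1 = rt X := by
      rintro ⟨Y', h⟩
      exact oo_ne_rt Y'.2.1 Y'.2.2 h
    have h1 : ¬ ∃ Y' : Lab X, mm X Y'.1 = rt X := by
      rintro ⟨Y', h⟩
      have := mm_self Y'.2.1
      rw [h] at this
      exact Y'.2.2 this.2
    simp only [σ, dif_neg h0, dif_neg h1]
  have hσ4 : ∀ Y : Lab X, τ Y = (ε Y.1)⁻¹ * ε (Y.1ᶜ) * σ (oo X Y.1ᶜ) := by
    intro Y
    rw [hτ Y]
    congr 1
    by_cases h : par Y
    · rw [dif_pos h, ← hσ1 h.choose]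
      exact congrArg σ h.choose_spec.2
    · rw [dif_neg h]
      rcases parent hX Y.2.1 Y.2.2 with h1 | ⟨Y', h1, h2, h3, h4⟩
      · rw [h1, hσ3]
      · exact absurd ⟨⟨Y', h1, h2⟩, h3, h4⟩ h
  refine ⟨σ, fun Z hZ => ?_⟩
  by_cases h : (1 : G) ∈ Z
  · have h1 : (1 : G) ∉ Zᶜ := fun hc => hc h
    have h2 := hσ2 ⟨Zᶜ, hs_compl hZ, h1⟩
    have h3 := hσ4 ⟨Zᶜ, hs_compl hZ, h1⟩
    simp only [compl_compl, mm_compl] at h2 h3
    rw [h2, h3]
    group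
  · have h2 := hσ2 ⟨Z, hZ, h⟩
    have h3 := hσ1 ⟨Z, hZ, h⟩
    simp only at h2 h3
    rw [h2, h3]

/-- Vertices. -/
abbrev Vx (X : Set G) : Type := {O : Set (Set G) // ∃ Y ∈ Hs X, O = oo X Y ∨ O = mm X Y}

/-- Edges. -/
abbrev Eg (X : Set G) : Type := {Y : Set G // Y ∈ Hs X}

instance actVx : MulAction G (Vx X) where
  smul g O := ⟨tr g '' O.1, by
    obtain ⟨O, Y, hY, rfl | rfl⟩ := O
    · exact ⟨tr g Y, hs_tr hY g, Or.inl (tr_oo _ _)⟩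
    · exact ⟨tr g Y, hs_tr hY g, Or.inr (tr_mm _ _)⟩⟩
  one_smul O := by
    apply Subtype.ext
    change tr 1 '' O.1 = O.1
    have : (tr (1 : G)) = id := funext tr_one
    rw [this, Set.image_id]
  mul_smul a b O := by
    apply Subtype.ext
    change tr (a * b) '' O.1 = tr a '' (tr b '' O.1)
    rw [Set.image_image]
    simp only [tr_tr]

instance actEg : MulAction G (Eg X) where
  smul g Y := ⟨tr g Y.1, hs_tr Y.2 g⟩
  one_smul Y := Subtype.ext (tr_one _)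
  mul_smul a b Y := Subtype.ext (tr_tr _ _ _).symm

theorem smul_Vx (g : G) (O : Vx X) : (g • O).1 = tr g '' O.1 := rfl

theorem smul_Eg (g : G) (Y : Eg X) : (g • Y).1 = tr g Y.1 := rfl

/-- The tree. -/
def cutTree (hX : HSys X) : GTree G where
  W := Vx X
  Ed := Eg X
  actW := actVx
  actE := actEg
  s Y := ⟨oo X Y.1, Y.1, Y.2, Or.inl rfl⟩
  t Y := ⟨mm X Y.1, Y.1, Y.2, Or.inr rfl⟩
  s_smul g Y := Subtype.ext (tr_oo _ _).symm
  t_smul g Y := Subtype.ext (tr_mm _ _).symm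
  conn A hA hcl := by
    let P : Set (Set G) → Prop := fun O => ∃ h, (⟨O, h⟩ : Vx X) ∈ A
    have hP : ∀ Y ∈ Hs X, (P (oo X Y) ↔ P (mm X Y)) := by
      intro Y hY
      have := hcl ⟨Y, hY⟩
      constructor
      · rintro ⟨h, h'⟩
        exact ⟨_, this.mp h'⟩
      · rintro ⟨h, h'⟩
        exact ⟨_, this.mpr h'⟩
    have hP2 : ∀ Y ∈ Hs X, (P (oo X Y) ↔ P (oo X Yᶜ)) := by
      intro Y hY
      rw [hP Y hY, hP _ (hs_compl hY), mm_compl]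
    have key : ∀ Y : Lab X, (P (oo X Y.1) ↔ P (rt X)) := by
      intro Y
      induction Y using (lab_wf hX).induction with
      | _ Y ih =>
        rw [hP2 _ Y.2.1]
        rcases parent hX Y.2.1 Y.2.2 with h | ⟨Y', h1, h2, h3, h4⟩
        · rw [h]
        · rw [← h4]
          exact ih ⟨Y', h1, h2⟩ h3
    have key2 : ∀ Y ∈ Hs X, (P (oo X Y) ↔ P (rt X)) := by
      intro Y hY
      by_cases h : (1 : G) ∈ Y
      · rw [hP2 _ hY]
        exact key ⟨Yᶜ, hs_compl hY, fun hc => hc h⟩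
      · exact key ⟨Y, hY, h⟩
    have key3 : ∀ w : Vx X, (P w.1 ↔ P (rt X)) := by
      rintro ⟨O, Y, hY, rfl | rfl⟩
      · exact key2 Y hY
      · rw [← hP _ hY]
        exact key2 Y hY
    have key4 : ∀ w : Vx X, (w ∈ A ↔ P w.1) := by
      intro w
      constructor
      · intro h
        exact ⟨w.2, h⟩
      · rintro ⟨h, h'⟩
        exact h'
    obtain ⟨w₁, hw₁⟩ := hA
    ext w
    simp only [Set.mem_univ, iff_true]
    rw [key4, key3, ← key3 w₁, ← key4]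
    exact hw₁
  flat E _ ε := by
    classical
    obtain ⟨σ, hσ⟩ := flat_core hX E (fun Y => if h : Y ∈ Hs X then ε ⟨Y, h⟩ else 1)
    refine ⟨fun w => σ w.1, ?_⟩
    rintro ⟨Y, hY⟩
    have := hσ Y hY
    simp only [dif_pos hY] at this
    exact this
  fin Y := by
    have := (hX.finite_stab Y.2).to_subtype
    refine Finite.of_injective (β := {g : G | tr g Y.1 = Y.1})
      (fun g => ⟨g.1, congrArg Subtype.val g.2⟩) ?_
    intro a b h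
    exact Subtype.ext (congrArg (fun z => z.1) h)

theorem cutTree_root (hX : HSys X) :
    ∃ w₀ : (cutTree hX).W, ∀ g : G, g • w₀ = w₀ ↔ ∀ h, (h ∈ X ↔ h * g ∈ X) := by
  obtain ⟨Y, hY, h⟩ := rt_eq hX
  let w₀ : Vx X := ⟨rt X, Y, hY, Or.inl h⟩
  refine ⟨w₀, fun g => ?_⟩
  have h1 : g • w₀ = w₀ ↔ tr g '' rt X = rt X := by
    rw [Subtype.ext_iff]
    rfl
  change g • w₀ = w₀ ↔ _
  rw [h1]
  have h2 : tr g '' rt X = {Y | Y ∈ Hs X ∧ g ∈ Y} := by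
    ext Z
    constructor
    · rintro ⟨Z, ⟨hZ, hZ1⟩, rfl⟩
      exact ⟨hs_tr hZ g, by rw [mem_tr, inv_mul_cancel]; exact hZ1⟩
    · rintro ⟨hZ, hZ1⟩
      exact ⟨tr g⁻¹ Z, ⟨hs_tr hZ _, by rw [mem_tr, inv_inv, mul_one]; exact hZ1⟩, tr_tr_inv _ _⟩
  rw [h2]
  constructor
  · intro h3 k
    have h4 : tr k⁻¹ X ∈ {Y | Y ∈ Hs X ∧ g ∈ Y} ↔ tr k⁻¹ X ∈ rt X := by rw [h3]
    have h5 : tr k⁻¹ X ∈ Hs X := hs_tr hs_self _
    simp only [Set.mem_ofPred_eq, rt, h5, true_and, mem_tr, inv_inv, mul_one] at h4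
    exact h4.symm
  · intro h3
    ext Z
    simp only [Set.mem_ofPred_eq, rt]
    refine and_congr_right fun hZ => ?_
    obtain ⟨k, rfl | rfl⟩ := hZ
    · rw [mem_tr, mem_tr, mul_one]
      exact (h3 k⁻¹).symm
    · rw [← tr_compl, mem_tr, mem_tr, mul_one, Set.mem_compl_iff, Set.mem_compl_iff, not_iff_not]
      exact (h3 k⁻¹).symm

theorem cutTree_orb (hX : HSys X) :
    ∃ v : Fin 3 → (cutTree hX).W, ∀ w, ∃ (i : Fin 3) (g : G), w = g • v i := by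
  let v₀ : Vx X := ⟨oo X X, X, hs_self, Or.inl rfl⟩
  let v₁ : Vx X := ⟨oo X Xᶜ, Xᶜ, hs_compl hs_self, Or.inl rfl⟩
  let v₂ : Vx X := ⟨mm X X, X, hs_self, Or.inr rfl⟩
  refine ⟨![v₀, v₁, v₂], ?_⟩
  rintro ⟨O, Y, ⟨g, rfl | rfl⟩, rfl | rfl⟩
  · exact ⟨0, g, Subtype.ext (tr_oo _ _).symm⟩
  · exact ⟨2, g, Subtype.ext (tr_mm _ _).symm⟩
  · exact ⟨1, g, Subtype.ext (tr_oo g Xᶜ).symm⟩
  · refine ⟨2, g, Subtype.ext ?_⟩
    change mm X (tr g X)ᶜ = tr g '' mm X X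
    rw [mm_compl, tr_mm]

theorem tree (hF : S_FIX) (hN : S_NOFIX) : S_TREE := by
  intro G _ X hX
  refine ⟨cutTree hX, cutTree_root hX, cutTree_orb hX, ?_, ?_⟩
  · intro C hC
    obtain ⟨Y, hY, h | h⟩ := hF G X hX C hC
    · exact ⟨(⟨oo X Y, Y, hY, Or.inl rfl⟩ : Vx X), fun c hc => Subtype.ext (h c hc)⟩
    · exact ⟨(⟨mm X Y, Y, hY, Or.inr rfl⟩ : Vx X), fun c hc => Subtype.ext (h c hc)⟩
  · intro hi hi' N hNf w
    obtain ⟨O, Y, hY, rfl | rfl⟩ := w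
    · obtain ⟨n, hn, hne⟩ := (hN G X hX hi hi' N hNf Y hY).1
      exact ⟨n, hn, fun h => hne (congrArg Subtype.val h)⟩
    · obtain ⟨n, hn, hne⟩ := (hN G X hX hi hi' N hNf Y hY).2
      exact ⟨n, hn, fun h => hne (congrArg Subtype.val h)⟩

end Pool.Agent.W393.LR
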