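import Mathlib

/-!
Definitions for the proof that every virtually free group has property (LR).
-/

set_option autoImplicit false

namespace Pool.Agent.W393.LR

/-- `θ` restricts to a homomorphism on the subgroup `C`. -/
def HomOn {G E : Type} [Group G] [Group E] (C : Subgroup G) (θ : G → E) : Prop :=
  ∀ x ∈ C, ∀ y ∈ C, θ (x * y) = θ x * θ y

/-- `θ` and `θ'` are conjugate on `C`. -/
def ConjOn {G E : Type} [Group G] [Group E] (C : Subgroup G) (θ θ' : G → E) : Prop :=
  ∃ ε : E, ∀ c ∈ C, θ' c = ε * θ c * ε⁻¹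

/-- A family of almost right-invariant sets of `G`, each `g` moving only finitely many of their
left translates, whose common right stabilizer is `Z`. -/
def HasSep (G : Type) [Group G] (Z : Subgroup G) : Prop :=
  ∃ (I : Type) (U : I → Set G),
    (∀ g : G, {p : G × I | ¬ (p.1 ∈ U p.2 ↔ p.1 * g ∈ U p.2)}.Finite) ∧
    (∀ g : G, g ∈ Z ↔ ∀ (i : I) (x : G), (x ∈ U i ↔ x * g ∈ U i))

/-- Almost right invariant set. -/
def AI {G : Type} [Group G] (X : Set G) : Prop :=
  ∀ g : G, {x : G | ¬ (x ∈ X ↔ x * g ∈ X)}.Finite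

/-- A tree with a `G`-action without inversions and with finite edge stabilizers. `conn` says that
it is connected, `flat` that it is simply connected. -/
structure GTree (G : Type) [Group G] where
  W : Type
  Ed : Type
  actW : MulAction G W
  actE : MulAction G Ed
  s : Ed → W
  t : Ed → W
  s_smul : ∀ (g : G) (e : Ed), s (g • e) = g • s e
  t_smul : ∀ (g : G) (e : Ed), t (g • e) = g • t e
  conn : ∀ A : Set W, A.Nonempty → (∀ e, s e ∈ A ↔ t e ∈ A) → A = Set.univ
  flat : ∀ (E : Type) [Group E] (ε : Ed → E), ∃ σ : W → E, ∀ e, σ (t e) = ε e * σ (s e)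
  fin : ∀ e : Ed, Finite (MulAction.stabilizer G e)

attribute [instance] GTree.actW GTree.actE

/-! ### Half spaces -/

section halfspaces

variable {G : Type} [Group G]

/-- Left translate `gX`. -/
def tr (g : G) (X : Set G) : Set G := {x | g⁻¹ * x ∈ X}

/-- Nested sets. -/
def Nested (X Y : Set G) : Prop := X ⊆ Y ∨ Y ⊆ X ∨ X ⊆ Yᶜ ∨ Xᶜ ⊆ Y

/-- The half spaces: translates of `X` and their complements. -/
def Hs (X : Set G) : Set (Set G) := {Y | ∃ g, Y = tr g X ∨ Y = (tr g X)ᶜ}

/-- The vertex adjacent to the half space `Y` and inside `Y`. -/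
def oo (X Y : Set G) : Set (Set G) := {Y' | Y' ∈ Hs X ∧ (Y ⊆ Y' ∨ Yᶜ ⊂ Y')}

/-- The midpoint of the edge given by the pair `{Y, Yᶜ}`. -/
def mm (X Y : Set G) : Set (Set G) := {Y' | Y' ∈ Hs X ∧ (Y ⊆ Y' ∨ Yᶜ ⊆ Y')}

/-- A nested half space system. -/
structure HSys (X : Set G) : Prop where
  fin : ∀ a b : G, {g : G | g⁻¹ * a ∈ X ∧ g⁻¹ * b ∉ X}.Finite
  ne : X.Nonempty
  ne' : Xᶜ.Nonempty
  nest : ∀ g : G, Nested (tr g X) X

end halfspaces

/-! ### Permutational wreath products -/

/-- Permutational wreath product, acting on `I × H` by `(i, x) ↦ (σ i, f i * x)`. -/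
@[ext] structure Wr (H I : Type) where
  σ : Equiv.Perm I
  f : I → H

namespace Wr

variable {H I : Type} [Group H]

instance : Mul (Wr H I) := ⟨fun a b => ⟨a.σ * b.σ, fun i => a.f (b.σ i) * b.f i⟩⟩
instance : One (Wr H I) := ⟨⟨1, fun _ => 1⟩⟩
instance : Inv (Wr H I) := ⟨fun a => ⟨a.σ⁻¹, fun i => (a.f (a.σ⁻¹ i))⁻¹⟩⟩

theorem mul_σ (a b : Wr H I) : (a * b).σ = a.σ * b.σ := rfl
theorem mul_f (a b : Wr H I) (i : I) : (a * b).f i = a.f (b.σ i) * b.f i := rfl
theorem one_σ : (1 : Wr H I).σ = 1 := rfl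
theorem one_f (i : I) : (1 : Wr H I).f i = 1 := rfl
theorem inv_σ (a : Wr H I) : (a⁻¹).σ = a.σ⁻¹ := rfl
theorem inv_f (a : Wr H I) (i : I) : (a⁻¹).f i = (a.f (a.σ⁻¹ i))⁻¹ := rfl

instance : Group (Wr H I) :=
  Group.ofLeftAxioms
    (by
      intro a b c
      refine Wr.ext (mul_assoc _ _ _) (funext fun i => ?_)
      simp only [mul_f, mul_σ, Equiv.Perm.mul_apply, mul_assoc])
    (by
      intro a
      refine Wr.ext (one_mul _) (funext fun i => ?_)
      simp only [mul_f, one_f, one_mul])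
    (by
      intro a
      refine Wr.ext (inv_mul_cancel _) (funext fun i => ?_)
      have h : a.σ⁻¹ (a.σ i) = i := a.σ.symm_apply_apply i
      simp only [mul_f, inv_f, one_f, h, inv_mul_cancel])

end Wr

/-- `w` on `J`, with one further orbit `none` on which it acts by left multiplication with `h`. -/
def extW {H J : Type} (h : H) (w : Wr H J) : Wr H (Option J) where
  σ := w.σ.optionCongr
  f i := i.elim h w.f

/-- The compensation property. -/
def CP (H : Type) [Group H] (Q : Type) [Group Q] (q : H →* Q) : Prop :=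
  ∃ (J : Type) (_ : Finite J) (π : Q →* Wr H (Option J)) (θ : H →* Wr H J),
    ∀ C : Subgroup H, Finite C → ConjOn C (fun c => extW c (θ c)) (fun c => π (q c))

/-- The relative extension property of a subgroup `Z` of `G`. -/
def ExtProp (G : Type) [Group G] (Z : Subgroup G) : Prop :=
  ∀ (E : Type) [Group E] (π : G →* E) (θ : G → E), HomOn Z θ →
    (∀ C : Subgroup G, Finite C → C ≤ Z → ConjOn C θ π) →
    ∃ Θ : G →* E, (∀ z ∈ Z, Θ z = θ z) ∧ ∀ C : Subgroup G, Finite C → ConjOn C Θ π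

end Pool.Agent.W393.LR
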