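import Pool.Agent.W393.LR.Stmts

/-! Gluing homomorphisms along a tree. -/

set_option autoImplicit false
set_option linter.unusedSectionVars false

namespace Pool.Agent.W393.LR

open MulAction

theorem gl : S_GL := by
  classical
  intro G E _ _ T Λ h1 h2 h3 w₀ θ hθ hΛ
  -- representatives
  obtain ⟨r, k, hr0, hk0, hrk, hrg⟩ : ∃ (r : T.W → T.W) (k : T.W → G), r w₀ = w₀ ∧ k w₀ = 1 ∧
      (∀ w, k w • r w = w) ∧ (∀ (g : G) (w : T.W), r (g • w) = r w) := by
    let r₁ : T.W → T.W := fun w =>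
      if w ∈ orbit G w₀ then w₀ else (Quotient.mk (orbitRel G T.W) w).out
    have hr₁ : ∀ w, ∃ g : G, g • r₁ w = w := by
      intro w
      by_cases hw : w ∈ orbit G w₀
      · have e : r₁ w = w₀ := if_pos hw
        obtain ⟨g, hg⟩ := hw
        exact ⟨g, by rw [e]; exact hg⟩
      · simp only [r₁, if_neg hw]
        have : (orbitRel G T.W) (Quotient.mk (orbitRel G T.W) w).out w :=
          Quotient.exact (Quotient.out_eq _)
        obtain ⟨g, hg⟩ := (orbitRel G T.W).iseqv.symm this
        exact ⟨g, hg⟩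
    have hinv : ∀ (g : G) (w : T.W), r₁ (g • w) = r₁ w := by
      intro g w
      have h4 : g • w ∈ orbit G w₀ ↔ w ∈ orbit G w₀ := by
        constructor
        · rintro ⟨a, ha⟩
          refine ⟨g⁻¹ * a, ?_⟩
          simp only at ha ⊢
          rw [mul_smul, ha, inv_smul_smul]
        · rintro ⟨a, ha⟩
          refine ⟨g * a, ?_⟩
          simp only at ha ⊢
          rw [mul_smul, ha]
      have h5 : Quotient.mk (orbitRel G T.W) (g • w) = Quotient.mk (orbitRel G T.W) w :=
        Quotient.sound ⟨g, rfl⟩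
      simp only [r₁, h4, h5]
    have hw0 : r₁ w₀ = w₀ := by
      simp only [r₁, if_pos (mem_orbit_self w₀)]
    refine ⟨r₁, fun w => if w = w₀ then 1 else (hr₁ w).choose, hw0, if_pos rfl, ?_, hinv⟩
    intro w
    by_cases hw : w = w₀
    · simp only [if_pos hw]
      rw [one_smul, hw, hw0]
    · simp only [if_neg hw]
      exact (hr₁ w).choose_spec
  -- the cocycle
  let c : G → T.W → E := fun g w => θ (r w) ((k (g • w))⁻¹ * g * k w)
  have hst : ∀ g w, (k (g • w))⁻¹ * g * k w ∈ stabilizer G (r w) := by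
    intro g w
    rw [mem_stabilizer_iff, mul_smul, mul_smul, hrk, inv_smul_eq_iff]
    conv_rhs => rw [← hrg g w]
    rw [hrk]
  have hcoc : ∀ g h w, c (g * h) w = c g (h • w) * c h w := by
    intro g h w
    have e1 : r (h • w) = r w := hrg h w
    have e2 : (k ((g * h) • w))⁻¹ * (g * h) * k w =
        ((k (g • h • w))⁻¹ * g * k (h • w)) * ((k (h • w))⁻¹ * h * k w) := by
      rw [mul_smul]
      group
    change θ (r w) _ = θ (r (h • w)) _ * θ (r w) _
    rw [e2, e1]
    refine hθ (r w) _ ?_ _ (hst h w)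
    have := hst g (h • w)
    rwa [e1] at this
  have hc1 : ∀ w, c 1 w = 1 := by
    intro w
    have := hcoc 1 1 w
    rw [mul_one, one_smul] at this
    exact (mul_eq_left.mp this.symm)
  have hcinv : ∀ g w, c g⁻¹ (g • w) = (c g w)⁻¹ := by
    intro g w
    have := hcoc g⁻¹ g w
    rw [inv_mul_cancel, hc1] at this
    exact eq_inv_of_mul_eq_one_left this.symm
  have hcst : ∀ g w, g ∈ stabilizer G w → c g w = θ (r w) ((k w)⁻¹ * g * k w) := by
    intro g w hg
    change θ (r w) _ = _
    rw [mem_stabilizer_iff.mp hg]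
  have hhom : ∀ w, HomOn (stabilizer G w) (fun g => c g w) := by
    intro w x hx y hy
    change c (x * y) w = c x w * c y w
    rw [hcoc, mem_stabilizer_iff.mp hy]
  have hΛc : ∀ w (C : Subgroup G), Finite C → C ≤ stabilizer G w →
      Λ C (fun x => θ (r w) ((k w)⁻¹ * x * k w)) := by
    intro w C hC hle
    let C' : Subgroup G := C.map (MulAut.conj (k w)⁻¹).toMonoidHom
    have hC' : Finite C' := by
      have : Finite (C : Set G) := hC
      exact (Set.toFinite ((MulAut.conj (k w)⁻¹).toMonoidHom '' (C : Set G))).to_subtype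
    refine h2 C' C (k w) (θ (r w)) ?_ (hΛ (r w) C' hC' ?_)
    · intro x hx
      refine ⟨x, hx, ?_⟩
      simp only [MulEquiv.coe_toMonoidHom, MulAut.conj_apply, inv_inv]
    · rintro _ ⟨x, hx, rfl⟩
      simp only [MulEquiv.coe_toMonoidHom, MulAut.conj_apply, inv_inv, mem_stabilizer_iff]
      rw [mul_smul, mul_smul, hrk, mem_stabilizer_iff.mp (hle hx)]
      rw [inv_smul_eq_iff, hrk]
  -- edges
  obtain ⟨ε, hε⟩ : ∃ ε : T.Ed → E, ∀ (g : G) (e : T.Ed),
      ε (g • e) = c g (T.t e) * ε e * (c g (T.s e))⁻¹ := by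
    let p : T.Ed → T.Ed := fun e => (Quotient.mk (orbitRel G T.Ed) e).out
    have hp : ∀ e, ∃ g : G, g • p e = e := by
      intro e
      have : (orbitRel G T.Ed) (Quotient.mk (orbitRel G T.Ed) e).out e :=
        Quotient.exact (Quotient.out_eq _)
      obtain ⟨g, hg⟩ := (orbitRel G T.Ed).iseqv.symm this
      exact ⟨g, hg⟩
    have hpg : ∀ (g : G) (e : T.Ed), p (g • e) = p e := by
      intro g e
      have h5 : Quotient.mk (orbitRel G T.Ed) (g • e) = Quotient.mk (orbitRel G T.Ed) e :=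
        Quotient.sound ⟨g, rfl⟩
      simp only [p, h5]
    choose l hl using hp
    have hε₀ : ∀ e : T.Ed, ∃ ε₀ : E, ∀ g ∈ stabilizer G e,
        c g (T.t e) = ε₀ * c g (T.s e) * ε₀⁻¹ := by
      intro e
      have hs : stabilizer G e ≤ stabilizer G (T.s e) := by
        intro g hg
        rw [mem_stabilizer_iff] at hg ⊢
        rw [← T.s_smul, hg]
      have ht : stabilizer G e ≤ stabilizer G (T.t e) := by
        intro g hg
        rw [mem_stabilizer_iff] at hg ⊢
        rw [← T.t_smul, hg]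
      have key : ∀ w, stabilizer G e ≤ stabilizer G w →
          HomOn (stabilizer G e) (fun x => θ (r w) ((k w)⁻¹ * x * k w)) := by
        intro w hw x hx y hy
        have := hhom w x (hw hx) y (hw hy)
        simp only at this
        rw [hcst _ _ (hw hx), hcst _ _ (hw hy), hcst _ _ (mul_mem (hw hx) (hw hy))] at this
        exact this
      obtain ⟨ε₀, h⟩ := h1 (stabilizer G e) _ _ (T.fin e) (key _ hs) (key _ ht)
        (hΛc _ _ (T.fin e) hs) (hΛc _ _ (T.fin e) ht)
      refine ⟨ε₀, fun g hg => ?_⟩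
      rw [hcst _ _ (hs hg), hcst _ _ (ht hg)]
      exact h g hg
    choose ε₀ hε₀ using hε₀
    have hwd : ∀ (g g' : G) (e : T.Ed), g • e = g' • e →
        c g (T.t e) * ε₀ e * (c g (T.s e))⁻¹ = c g' (T.t e) * ε₀ e * (c g' (T.s e))⁻¹ := by
      intro g g' e he
      have hh : g⁻¹ * g' ∈ stabilizer G e := by
        rw [mem_stabilizer_iff, mul_smul, ← he, inv_smul_smul]
      have e1 : g' = g * (g⁻¹ * g') := by group
      have hs : (g⁻¹ * g') • T.s e = T.s e := by
        rw [← T.s_smul, mem_stabilizer_iff.mp hh]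
      have ht : (g⁻¹ * g') • T.t e = T.t e := by
        rw [← T.t_smul, mem_stabilizer_iff.mp hh]
      have e2 : c g' (T.t e) = c g (T.t e) * c (g⁻¹ * g') (T.t e) := by
        conv_lhs => rw [e1, hcoc, ht]
      have e3 : c g' (T.s e) = c g (T.s e) * c (g⁻¹ * g') (T.s e) := by
        conv_lhs => rw [e1, hcoc, hs]
      rw [e2, e3, hε₀ e _ hh]
      group
    refine ⟨fun e => c (l e) (T.t (p e)) * ε₀ (p e) * (c (l e) (T.s (p e)))⁻¹, ?_⟩
    intro g e
    simp only
    rw [hpg g e]
    have e1 := hwd (l (g • e)) (g * l e) (p e) (by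
      rw [mul_smul, hl e]
      have := hl (g • e)
      rwa [hpg] at this)
    rw [e1, hcoc, hcoc, ← T.t_smul, ← T.s_smul, hl]
    group
  obtain ⟨σ₁, hσ₁⟩ := T.flat E ε
  let σ : T.W → E := fun w => σ₁ w * (σ₁ w₀)⁻¹
  have hσ : ∀ e, σ (T.t e) = ε e * σ (T.s e) := by
    intro e
    simp only [σ, hσ₁, mul_assoc]
  have hσ0 : σ w₀ = 1 := mul_inv_cancel _
  let F : G → T.W → E := fun g w => (σ (g • w))⁻¹ * c g w * σ w
  have hF : ∀ g w, F g w = F g w₀ := by
    intro g w
    have := T.conn {w | F g w = F g w₀} ⟨w₀, rfl⟩ (by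
      intro e
      have : F g (T.t e) = F g (T.s e) := by
        simp only [F]
        rw [← T.t_smul, ← T.s_smul, hσ, hσ, hε]
        group
      simp only [Set.mem_ofPred_eq, this])
    have h4 : w ∈ {w | F g w = F g w₀} := by rw [this]; trivial
    exact h4
  have hmul : ∀ g h, F (g * h) w₀ = F g w₀ * F h w₀ := by
    intro g h
    rw [← hF g (h • w₀)]
    simp only [F]
    rw [hcoc, mul_smul]
    group
  let Θ : G →* E := MonoidHom.mk' (fun g => F g w₀) hmul
  refine ⟨Θ, ?_, ?_⟩
  · intro g hg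
    change (σ (g • w₀))⁻¹ * c g w₀ * σ w₀ = θ w₀ g
    rw [mem_stabilizer_iff.mp hg, hσ0, hcst g w₀ hg, hr0, hk0]
    simp
  · intro w C hC hle
    refine h3 C _ Θ (hΛc w C hC hle) ⟨(σ w)⁻¹, fun g hg => ?_⟩
    change F g w₀ = _
    rw [← hF g w]
    change (σ (g • w))⁻¹ * c g w * σ w = _
    rw [mem_stabilizer_iff.mp (hle hg), hcst g w (hle hg), inv_inv]

end Pool.Agent.W393.LR
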