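import Pool.Agent.W393.LR.Stmts

/-! Basic facts on half spaces. -/

set_option autoImplicit false
set_option linter.unusedSectionVars false

namespace Pool.Agent.W393.LR

variable {G : Type} [Group G] {X : Set G}

theorem mem_tr {g x : G} {Y : Set G} : x ∈ tr g Y ↔ g⁻¹ * x ∈ Y := Iff.rfl

theorem tr_tr (a b : G) (Y : Set G) : tr a (tr b Y) = tr (a * b) Y := by
  ext x
  simp only [mem_tr, mul_inv_rev, mul_assoc]

theorem tr_one (Y : Set G) : tr 1 Y = Y := by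
  ext x
  simp only [mem_tr, inv_one, one_mul]

theorem tr_compl (a : G) (Y : Set G) : tr a Yᶜ = (tr a Y)ᶜ := rfl

theorem tr_inv_tr (a : G) (Y : Set G) : tr a⁻¹ (tr a Y) = Y := by
  rw [tr_tr, inv_mul_cancel, tr_one]

theorem tr_tr_inv (a : G) (Y : Set G) : tr a (tr a⁻¹ Y) = Y := by
  rw [tr_tr, mul_inv_cancel, tr_one]

theorem tr_injective (a : G) : Function.Injective (tr a : Set G → Set G) := by
  intro Y Y' h
  have := congrArg (tr a⁻¹) h
  rwa [tr_inv_tr, tr_inv_tr] at this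

theorem tr_mono {a : G} {Y Y' : Set G} (h : Y ⊆ Y') : tr a Y ⊆ tr a Y' := fun _ hx => h hx

theorem tr_subset {a : G} {Y Y' : Set G} : tr a Y ⊆ tr a Y' ↔ Y ⊆ Y' := by
  constructor
  · intro h
    have := tr_mono (a := a⁻¹) h
    rwa [tr_inv_tr, tr_inv_tr] at this
  · exact tr_mono

theorem tr_ssubset {a : G} {Y Y' : Set G} : tr a Y ⊂ tr a Y' ↔ Y ⊂ Y' := by
  rw [ssubset_iff_subset_not_subset, ssubset_iff_subset_not_subset, tr_subset, tr_subset]

theorem hs_tr {Y : Set G} (h : Y ∈ Hs X) (a : G) : tr a Y ∈ Hs X := by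
  obtain ⟨g, rfl | rfl⟩ := h
  · exact ⟨a * g, Or.inl (tr_tr _ _ _)⟩
  · exact ⟨a * g, Or.inr (by rw [tr_compl, tr_tr])⟩

theorem hs_compl {Y : Set G} (h : Y ∈ Hs X) : Yᶜ ∈ Hs X := by
  obtain ⟨g, rfl | rfl⟩ := h
  · exact ⟨g, Or.inr rfl⟩
  · exact ⟨g, Or.inl (compl_compl _)⟩

theorem hs_self : X ∈ Hs X := ⟨1, Or.inl (tr_one X).symm⟩

theorem Nested.tr {Y Y' : Set G} (h : Nested Y Y') (a : G) : Nested (tr a Y) (LR.tr a Y') := by
  unfold Nested at *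
  rw [← tr_compl, ← tr_compl, tr_subset, tr_subset, tr_subset, tr_subset]
  exact h

theorem Nested.compl_left {Y Y' : Set G} (h : Nested Y Y') : Nested Yᶜ Y' := by
  unfold Nested at *
  rw [compl_compl]
  rcases h with h | h | h | h
  · right; right; right; exact h
  · right; right; left; exact Set.compl_subset_compl.mpr h
  · right; left; exact Set.subset_compl_comm.mp h
  · left; exact h

theorem Nested.symm {Y Y' : Set G} (h : Nested Y Y') : Nested Y' Y := by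
  unfold Nested at *
  rcases h with h | h | h | h
  · right; left; exact h
  · left; exact h
  · right; right; left; exact Set.subset_compl_comm.mp h
  · right; right; right; exact Set.compl_subset_comm.mp h

theorem Nested.compl_right {Y Y' : Set G} (h : Nested Y Y') : Nested Y Y'ᶜ :=
  h.symm.compl_left.symm

theorem HSys.nested (hX : HSys X) {Y Y' : Set G} (h : Y ∈ Hs X) (h' : Y' ∈ Hs X) :
    Nested Y Y' := by
  have key : ∀ g g' : G, Nested (tr g X) (tr g' X) := by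
    intro g g'
    have := (hX.nest (g'⁻¹ * g)).tr g'
    rwa [tr_tr, mul_inv_cancel_left] at this
  obtain ⟨g, rfl | rfl⟩ := h <;> obtain ⟨g', rfl | rfl⟩ := h'
  · exact key _ _
  · exact (key _ _).compl_right
  · exact (key _ _).compl_left
  · exact (key _ _).compl_left.compl_right

theorem HSys.nonempty (hX : HSys X) {Y : Set G} (h : Y ∈ Hs X) : Y.Nonempty := by
  obtain ⟨g, rfl | rfl⟩ := h
  · obtain ⟨x, hx⟩ := hX.ne
    exact ⟨g * x, by rw [mem_tr, inv_mul_cancel_left]; exact hx⟩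
  · obtain ⟨x, hx⟩ := hX.ne'
    exact ⟨g * x, by rw [← tr_compl, mem_tr, inv_mul_cancel_left]; exact hx⟩

theorem HSys.finite_sep (hX : HSys X) (a b : G) : {Y | Y ∈ Hs X ∧ a ∈ Y ∧ b ∉ Y}.Finite := by
  have h1 := (hX.fin a b).image (fun g => tr g X)
  have h2 := (hX.fin b a).image (fun g => (tr g X)ᶜ)
  refine (h1.union h2).subset ?_
  rintro Y ⟨⟨g, rfl | rfl⟩, ha, hb⟩
  · exact Or.inl ⟨g, ⟨ha, hb⟩, rfl⟩
  · refine Or.inr ⟨g, ⟨?_, ?_⟩, rfl⟩
    · rw [Set.mem_compl_iff, not_not, mem_tr] at hb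
      exact hb
    · rw [Set.mem_compl_iff, mem_tr] at ha
      exact ha

theorem HSys.finite_stab (hX : HSys X) {Y : Set G} (h : Y ∈ Hs X) : {g : G | tr g Y = Y}.Finite := by
  obtain ⟨a, ha⟩ := hX.nonempty h
  obtain ⟨b, hb⟩ := hX.nonempty (hs_compl h)
  obtain ⟨h₀, rfl | rfl⟩ := h
  · refine ((hX.fin a b).preimage ((mul_left_injective h₀).injOn)).subset ?_
    intro g hg
    rw [Set.mem_ofPred_eq, tr_tr] at hg
    rw [Set.mem_preimage, Set.mem_ofPred_eq, ← mem_tr, ← mem_tr, hg]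
    exact ⟨ha, hb⟩
  · refine ((hX.fin b a).preimage ((mul_left_injective h₀).injOn)).subset ?_
    intro g hg
    rw [Set.mem_ofPred_eq, tr_compl, tr_tr, compl_inj_iff] at hg
    rw [Set.mem_preimage, Set.mem_ofPred_eq, ← mem_tr, ← mem_tr, hg]
    rw [compl_compl] at hb
    exact ⟨hb, ha⟩

theorem HSys.not_subset_compl (hX : HSys X) {Y Z : Set G} (h : Y ∈ Hs X) (h1 : Y ⊆ Z)
    (h2 : Y ⊆ Zᶜ) : False := by
  obtain ⟨a, ha⟩ := hX.nonempty h
  exact h2 ha (h1 ha)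

theorem mem_oo {Y Y' : Set G} : Y' ∈ oo X Y ↔ Y' ∈ Hs X ∧ (Y ⊆ Y' ∨ Yᶜ ⊂ Y') := Iff.rfl

theorem mem_mm {Y Y' : Set G} : Y' ∈ mm X Y ↔ Y' ∈ Hs X ∧ (Y ⊆ Y' ∨ Yᶜ ⊆ Y') := Iff.rfl

theorem tr_oo (a : G) (Y : Set G) : tr a '' oo X Y = oo X (tr a Y) := by
  ext Z
  constructor
  · rintro ⟨Z, ⟨h1, h2⟩, rfl⟩
    refine ⟨hs_tr h1 a, ?_⟩
    rw [← tr_compl, tr_subset, tr_ssubset]
    exact h2
  · rintro ⟨h1, h2⟩
    refine ⟨tr a⁻¹ Z, ⟨hs_tr h1 _, ?_⟩, tr_tr_inv _ _⟩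
    rw [← tr_compl, ← tr_tr_inv a Z, tr_subset, tr_ssubset] at h2
    exact h2

theorem tr_mm (a : G) (Y : Set G) : tr a '' mm X Y = mm X (tr a Y) := by
  ext Z
  constructor
  · rintro ⟨Z, ⟨h1, h2⟩, rfl⟩
    refine ⟨hs_tr h1 a, ?_⟩
    rw [← tr_compl, tr_subset, tr_subset]
    exact h2
  · rintro ⟨h1, h2⟩
    refine ⟨tr a⁻¹ Z, ⟨hs_tr h1 _, ?_⟩, tr_tr_inv _ _⟩
    rw [← tr_compl, ← tr_tr_inv a Z, tr_subset, tr_subset] at h2
    exact h2

theorem mm_compl (Y : Set G) : mm X Yᶜ = mm X Y := by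
  ext Z
  rw [mem_mm, mem_mm, compl_compl]
  tauto

end Pool.Agent.W393.LR
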