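import Pool.Agent.W393.LR.Glue
import Pool.Agent.W393.LR.Rel

/-! The relative extension theorem. -/

set_option autoImplicit false
set_option linter.unusedSectionVars false

namespace Pool.Agent.W393.LR

open MulAction

/-- Finite subgroups of a free group are trivial. -/
theorem free_tf {N : Type} [Group N] (hN : IsFreeGroup N) (C : Subgroup N) (hC : Finite C) :
    C = ⊥ := by
  rw [eq_bot_iff]
  intro c hc
  rw [Subgroup.mem_bot]
  have h1 : IsOfFinOrder (⟨c, hc⟩ : C) := isOfFinOrder_of_finite _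
  have h2 : IsOfFinOrder c := by
    have := C.subtype.isOfFinOrder h1
    exact this
  let e := IsFreeGroup.toFreeGroup N
  have h3 : IsOfFinOrder (e c) := e.toMonoidHom.isOfFinOrder h2
  have h4 := h3.eq_one'
  exact e.injective (by rw [h4, map_one])

/-- Restriction of a tree to a subgroup. -/
def GTree.restrict {G : Type} [Group G] (T : GTree G) (N : Subgroup G) : GTree N where
  W := T.W
  Ed := T.Ed
  actW := inferInstance
  actE := inferInstance
  s := T.s
  t := T.t
  s_smul g e := T.s_smul g.1 e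
  t_smul g e := T.t_smul g.1 e
  conn := T.conn
  flat := T.flat
  fin e := by
    have := T.fin e
    refine Finite.of_injective (β := stabilizer G e) (fun g => ⟨g.1.1, g.2⟩) ?_
    intro a b h
    exact Subtype.ext (Subtype.ext (congrArg (fun z => z.1) h))

theorem retract {G : Type} [Group G] (htf : ∀ C : Subgroup G, Finite C → C = ⊥) (T : GTree G)
    (w₀ : T.W) : ∃ r : G →* G, (∀ g, r g ∈ stabilizer G w₀) ∧ ∀ g ∈ stabilizer G w₀, r g = g := by
  classical
  obtain ⟨Θ, hΘ, -⟩ := gl G (stabilizer G w₀) T (fun _ _ => True) (by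
      intro C θ θ' hC h1 h2 _ _
      have hb := htf C hC
      refine ⟨1, fun c hc => ?_⟩
      rw [hb, Subgroup.mem_bot] at hc
      subst hc
      have e1 := h1 1 C.one_mem 1 C.one_mem
      have e2 := h2 1 C.one_mem 1 C.one_mem
      rw [mul_one] at e1 e2
      have f1 : θ 1 = 1 := mul_eq_left.mp e1.symm
      have f2 : θ' 1 = 1 := mul_eq_left.mp e2.symm
      rw [f1, f2]
      simp) (fun _ _ _ _ _ _ => trivial) (fun _ _ _ _ _ => trivial) w₀
      (fun w g => if h : w = w₀ ∧ g ∈ stabilizer G w₀ then ⟨g, h.2⟩ else 1) (by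
      intro w x hx y hy
      by_cases hw : w = w₀
      · subst hw
        simp only [true_and, dif_pos hx, dif_pos hy, dif_pos (mul_mem hx hy)]
        rfl
      · simp only [hw, false_and, dif_neg, not_false_iff, mul_one]) (fun _ _ _ _ => trivial)
  refine ⟨(stabilizer G w₀).subtype.comp Θ, fun g => (Θ g).2, fun g hg => ?_⟩
  have := hΘ g hg
  rw [dif_pos ⟨rfl, hg⟩] at this
  change (Θ g).1 = g
  rw [this]

/-- Data for the extension theorem. -/
structure RD (G : Type) [Group G] (N Z : Subgroup G) : Prop where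
  nor : N.Normal
  fi : N.FiniteIndex
  free : IsFreeGroup N
  inf : Infinite Z
  sup : N ⊔ Z = ⊤
  sep : HasSep G Z
  fg : ∃ S : Set N, S.Finite ∧ Subgroup.closure (S ∪ (Z.subgroupOf N : Set N)) = ⊤

/-- Characters of `N` trivial on `Z`. -/
abbrev Ch {G : Type} [Group G] (N Z : Subgroup G) : Type :=
  {χ : N →* ℤˣ // ∀ z ∈ Z.subgroupOf N, χ z = 1}

theorem finite_ch {N : Type} [Group N] (Z : Subgroup N) (S : Set N) (hS : S.Finite)
    (h : Subgroup.closure (S ∪ (Z : Set N)) = ⊤) : Finite {χ : N →* ℤˣ // ∀ z ∈ Z, χ z = 1} := by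
  have := hS.to_subtype
  refine Finite.of_injective (β := S → ℤˣ) (fun χ s => χ.1 s.1) ?_
  intro χ χ' he
  apply Subtype.ext
  refine MonoidHom.eq_of_eqOn_dense h ?_
  intro x hx
  rcases hx with hx | hx
  · exact congrFun he ⟨x, hx⟩
  · rw [χ.2 x hx, χ'.2 x hx]

theorem exists_tree (hT : S_TREE) {G : Type} [Group G] {N Z : Subgroup G} (h : RD G N Z)
    (hZ : Z ≠ ⊤) : ∃ (T : GTree G) (w₀ : T.W), Z ≤ stabilizer G w₀ ∧ stabilizer G w₀ ≠ ⊤ ∧
      ∀ C : Subgroup G, Finite C → ∃ w : T.W, ∀ c ∈ C, c • w = w := by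
  obtain ⟨g, hg⟩ : ∃ g, g ∉ Z := by
    by_contra hc
    push Not at hc
    exact hZ (eq_top_iff.mpr fun g _ => hc g)
  obtain ⟨I, U, hU1, hU2⟩ := h.sep
  have hinf := h.inf
  rw [hU2 g] at hg
  push Not at hg
  obtain ⟨i, x, hx⟩ := hg
  have hR : ∀ x, ∀ z ∈ Z, (x * z ∈ U i ↔ x ∈ U i) := fun x z hz => ((hU2 z).mp hz i x).symm
  have hAI : AI (U i) := by
    intro k
    refine ((hU1 k).preimage (f := fun y : G => (y, i)) ?_).subset ?_
    · intro a _ b _ hab
      exact congrArg Prod.fst hab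
    · intro y hy
      exact hy
  have hInf : ∀ V : Set G, (∀ x, ∀ z ∈ Z, (x * z ∈ V ↔ x ∈ V)) → V.Nonempty → V.Infinite := by
    rintro V hV ⟨a, ha⟩
    refine Set.infinite_of_injective_forall_mem (f := fun z : Z => a * z.1) ?_ ?_
    · intro z z' hz
      exact Subtype.ext (mul_left_cancel hz)
    · intro z
      exact (hV a z.1 z.2).mpr ha
  have hRc : ∀ x, ∀ z ∈ Z, (x * z ∈ (U i)ᶜ ↔ x ∈ (U i)ᶜ) := by
    intro x z hz
    rw [Set.mem_compl_iff, Set.mem_compl_iff, hR x z hz]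
  have hne : (U i).Nonempty ∧ ((U i)ᶜ).Nonempty := by
    rcases hx with ⟨h1, h2⟩ | ⟨h1, h2⟩
    · exact ⟨⟨_, h1⟩, ⟨_, h2⟩⟩
    · exact ⟨⟨_, h2⟩, ⟨_, h1⟩⟩
  obtain ⟨S, hS, hgen⟩ := h.fg
  have hgen' : Subgroup.closure (N.subtype '' S ∪ (Z : Set G)) = ⊤ := by
    rw [eq_top_iff, ← h.sup, sup_le_iff]
    constructor
    · have : N = (⊤ : Subgroup N).map N.subtype := by
        rw [← MonoidHom.range_eq_map, Subgroup.range_subtype]
      conv_lhs => rw [this, ← hgen, MonoidHom.map_closure]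
      refine Subgroup.closure_mono ?_
      rw [Set.image_union]
      refine Set.union_subset_union_right _ ?_
      rintro _ ⟨z, hz, rfl⟩
      exact hz
    · intro z hz
      exact Subgroup.subset_closure (Or.inr hz)
  obtain ⟨Y, hY1, hY2, hY3, hY4, hY5⟩ := rel G Z (N.subtype '' S) (hS.image _) hgen' (U i) hAI hR
    (hInf _ hR hne.1) (hInf _ hRc hne.2)
  have hsys : HSys Y := by
    refine ⟨?_, hY3.nonempty, hY4.nonempty, hY5⟩
    intro a b
    refine ((hY1 (a⁻¹ * b)).image (fun x => a * x⁻¹)).subset ?_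
    rintro k ⟨h1, h2⟩
    refine ⟨k⁻¹ * a, ?_, by group⟩
    intro hc
    apply h2
    have := hc.mp h1
    rwa [mul_assoc, mul_inv_cancel_left] at this
  obtain ⟨T, ⟨w₀, hw₀⟩, -, hfix, -⟩ := hT G Y hsys
  refine ⟨T, w₀, ?_, ?_, hfix⟩
  · intro z hz
    rw [mem_stabilizer_iff, hw₀]
    exact fun k => (hY2 k z hz).symm
  · intro htop
    obtain ⟨a, ha⟩ := hY3.nonempty
    obtain ⟨b, hb⟩ := hY4.nonempty
    have : a⁻¹ * b ∈ stabilizer G w₀ := by rw [htop]; trivial
    rw [mem_stabilizer_iff, hw₀] at this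
    have := (this a).mp ha
    rw [mul_inv_cancel_left] at this
    exact hb this

theorem rd_step (hT : S_TREE) (hRes : S_RES) (hCh : S_CHAR) {G : Type} [Group G]
    {N Z : Subgroup G} (h : RD G N Z) (hZ : Z ≠ ⊤) :
    ∃ (T : GTree G) (w₀ : T.W), Z ≤ stabilizer G w₀ ∧
      (∀ C : Subgroup G, Finite C → ∃ w : T.W, ∀ c ∈ C, c • w = w) ∧
      RD (stabilizer G w₀) (N.subgroupOf (stabilizer G w₀)) (Z.subgroupOf (stabilizer G w₀)) ∧
      Nat.card (Ch (N.subgroupOf (stabilizer G w₀)) (Z.subgroupOf (stabilizer G w₀))) <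
        Nat.card (Ch N Z) := by
  obtain ⟨T, w₀, hZ0, hne, hfix⟩ := exists_tree hT h hZ
  have hnor := h.nor
  have hfi := h.fi
  have hfree := h.free
  obtain ⟨r, hr1, hr2⟩ := retract (free_tf h.free) (T.restrict N) w₀
  let A : Subgroup N := (stabilizer G w₀).subgroupOf N
  have hA : ∀ n : N, n ∈ @stabilizer N (T.restrict N).W _ (T.restrict N).actW w₀ ↔ n ∈ A :=
    fun n => Iff.rfl
  have hr1' : ∀ n, r n ∈ A := hr1
  have hr2' : ∀ n ∈ A, r n = n := hr2
  have hAtop : A ≠ ⊤ := by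
    intro hA
    apply hne
    rw [eq_top_iff, ← h.sup, sup_le_iff]
    refine ⟨?_, hZ0⟩
    rw [← Subgroup.subgroupOf_eq_top]
    exact hA
  have hZA : Z.subgroupOf N ≤ A := fun z hz => hZ0 hz
  obtain ⟨S, hS, hgen⟩ := h.fg
  have hcard := hCh N hfree A (Z.subgroupOf N) r hr1' hr2' hAtop hZA (finite_ch _ S hS hgen)
  let G₀ := stabilizer G w₀
  let e : (N.subgroupOf G₀) ≃* A :=
    { toFun := fun x => ⟨⟨x.1.1, x.2⟩, x.1.2⟩
      invFun := fun x => ⟨⟨x.1.1, x.2⟩, x.1.2⟩
      left_inv := fun _ => rfl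
      right_inv := fun _ => rfl
      map_mul' := fun _ _ => rfl }
  refine ⟨T, w₀, hZ0, hfix, ⟨inferInstance, inferInstance, ?_, ?_, ?_, ?_, ?_⟩, ?_⟩
  · have : IsFreeGroup A := subgroupIsFreeOfIsFree A
    exact IsFreeGroup.ofMulEquiv e.symm
  · have := h.inf
    exact (Subgroup.subgroupOfEquivOfLe hZ0).toEquiv.symm.infinite_iff.mp this
  · rw [eq_top_iff]
    rintro ⟨g, hg⟩ -
    have hg' : g ∈ N ⊔ Z := by rw [h.sup]; trivial
    rw [Subgroup.mem_sup_of_normal_left] at hg'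
    obtain ⟨n, hn, z, hz, rfl⟩ := hg'
    have hn' : n ∈ stabilizer G w₀ := by
      have := mul_mem hg (inv_mem (hZ0 hz))
      rwa [mul_inv_cancel_right] at this
    have e1 : (⟨n * z, hg⟩ : stabilizer G w₀) = ⟨n, hn'⟩ * ⟨z, hZ0 hz⟩ := rfl
    rw [e1]
    exact Subgroup.mul_mem_sup hn hz
  · exact hRes G _ (stabilizer G w₀).subtype Z (Subgroup.subtype_injective _) h.sep
  · let ρ : N →* (N.subgroupOf G₀) :=
      { toFun := fun n => ⟨⟨(r n).1, hr1' n⟩, (r n).2⟩
        map_one' := by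
          apply Subtype.ext
          apply Subtype.ext
          change (r 1).1 = 1
          rw [map_one]
          rfl
        map_mul' := fun a b => by
          apply Subtype.ext
          apply Subtype.ext
          change (r (a * b)).1 = (r a).1 * (r b).1
          rw [map_mul]
          rfl }
    have hρ : ∀ x : N.subgroupOf G₀, ρ ⟨x.1.1, x.2⟩ = x := by
      intro x
      apply Subtype.ext
      apply Subtype.ext
      change (r ⟨x.1.1, x.2⟩).1 = _
      rw [hr2' ⟨x.1.1, x.2⟩ x.1.2]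
    refine ⟨ρ '' S, hS.image _, ?_⟩
    rw [eq_top_iff]
    have h1 : (⊤ : Subgroup (N.subgroupOf G₀)) = (⊤ : Subgroup N).map ρ := by
      rw [← MonoidHom.range_eq_map]
      symm
      rw [MonoidHom.range_eq_top]
      exact fun x => ⟨_, hρ x⟩
    rw [h1, ← hgen, MonoidHom.map_closure]
    refine Subgroup.closure_mono ?_
    rw [Set.image_union]
    refine Set.union_subset_union_right _ ?_
    rintro _ ⟨z, hz, rfl⟩
    have h2 : r z = z := hr2' z (hZA hz)
    change (r z).1 ∈ Z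
    rw [h2]
    exact hz
  · refine lt_of_eq_of_lt ?_ hcard
    refine Nat.card_congr
      { toFun := fun χ => ⟨χ.1.comp e.symm.toMonoidHom, fun z hz => χ.2 _ hz⟩
        invFun := fun χ => ⟨χ.1.comp e.toMonoidHom, fun z hz => χ.2 _ hz⟩
        left_inv := fun χ => rfl
        right_inv := fun χ => rfl }

theorem rd_ext (hT : S_TREE) (hRes : S_RES) (hCh : S_CHAR) (n : ℕ) :
    ∀ (G : Type) [Group G] (N Z : Subgroup G), RD G N Z → Nat.card (Ch N Z) = n →
      ExtProp G Z := by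
  classical
  induction n using Nat.strong_induction_on with
  | _ n ih =>
  intro G _ N Z h hn E _ π θ hθ hπ
  by_cases hZ : Z = ⊤
  · subst hZ
    exact ⟨MonoidHom.mk' θ fun a b => hθ a trivial b trivial, fun z _ => rfl,
      fun C hC => hπ C hC le_top⟩
  obtain ⟨T, w₀, hZ0, hfix, hRD, hlt⟩ := rd_step hT hRes hCh h hZ
  have hE := ih _ (by omega) (stabilizer G w₀) _ _ hRD rfl
  obtain ⟨Θ₀, hΘ₀, hc₀⟩ := hE E (π.comp (stabilizer G w₀).subtype) (fun g => θ g.1)
    (fun x hx y hy => hθ x.1 hx y.1 hy) (by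
      intro C hC hle
      have hfin : Finite (C.map (stabilizer G w₀).subtype) := by
        have : Finite (C : Set (stabilizer G w₀)) := hC
        exact (Set.toFinite ((stabilizer G w₀).subtype '' (C : Set _))).to_subtype
      obtain ⟨ε, hε⟩ := hπ (C.map (stabilizer G w₀).subtype) hfin (by
        rintro _ ⟨x, hx, rfl⟩
        exact hle hx)
      exact ⟨ε, fun c hc => hε c.1 ⟨c, hc, rfl⟩⟩)
  obtain ⟨Θ, hΘ1, hΘ2⟩ := gl G E T (fun C θ => ConjOn C θ π) (by
      rintro C θ₁ θ₂ hC - - ⟨ε, hε⟩ ⟨ε', hε'⟩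
      refine ⟨ε'⁻¹ * ε, fun c hc => ?_⟩
      have e1 := hε c hc
      have e2 := hε' c hc
      have e3 : θ₂ c = ε'⁻¹ * π c * ε' := by rw [e2]; group
      rw [e3, e1]
      group) (by
      rintro C C' g θ₁ hCC' ⟨ε, hε⟩
      refine ⟨π g * ε, fun x hx => ?_⟩
      have e1 := hε _ (hCC' x hx)
      have e2 : π x = π g * π (g⁻¹ * x * g) * (π g)⁻¹ := by
        rw [map_mul, map_mul, map_inv]; group
      rw [e2, e1]
      group) (by
      rintro C θ₁ θ₂ ⟨ε, hε⟩ ⟨ε', hε'⟩
      refine ⟨ε * ε'⁻¹, fun c hc => ?_⟩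
      rw [hε c hc, hε' c hc]
      group) w₀
      (fun w g => if w = w₀ then (if h : g ∈ stabilizer G w₀ then Θ₀ ⟨g, h⟩ else 1) else π g) (by
      intro w x hx y hy
      by_cases hw : w = w₀
      · subst hw
        simp only [if_true, dif_pos hx, dif_pos hy, dif_pos (mul_mem hx hy)]
        rw [← map_mul]
        rfl
      · simp only [if_neg hw, map_mul]) (by
      intro w C hC hle
      by_cases hw : w = w₀
      · subst hw
        have hfin : Finite (C.subgroupOf (stabilizer G w)) := by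
          refine Finite.of_injective (β := C) (fun x => ⟨x.1.1, x.2⟩) ?_
          intro a b hab
          exact Subtype.ext (Subtype.ext (congrArg (fun z => z.1) hab))
        obtain ⟨ε, hε⟩ := hc₀ (C.subgroupOf (stabilizer G w)) hfin
        refine ⟨ε, fun c hc => ?_⟩
        have := hε ⟨c, hle hc⟩ hc
        simp only [if_true, dif_pos (hle hc)]
        exact this
      · refine ⟨1, fun c _ => ?_⟩
        simp only [if_neg hw]
        group)
  refine ⟨Θ, fun z hz => ?_, fun C hC => ?_⟩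
  · rw [hΘ1 z (hZ0 hz)]
    simp only [if_true, dif_pos (hZ0 hz)]
    exact hΘ₀ ⟨z, hZ0 hz⟩ hz
  · obtain ⟨w, hw⟩ := hfix C hC
    exact hΘ2 w C hC hw

theorem thmR (hT : S_TREE) (hRes : S_RES) (hCh : S_CHAR) : S_R := by
  intro G _ N Z h1 h2 h3 h4 h5 h6 ⟨S, hS1, hS2, hS3⟩
  refine rd_ext hT hRes hCh _ G N Z ⟨h1, h2, h3, h4, h5, h6, N.subtype ⁻¹' S, ?_, ?_⟩ rfl
  · exact hS1.preimage (Subgroup.subtype_injective N).injOn
  · apply Subgroup.map_injective (Subgroup.subtype_injective N)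
    rw [MonoidHom.map_closure, ← MonoidHom.range_eq_map, Subgroup.range_subtype, Set.image_union,
      Set.image_preimage_eq_of_subset (by
        intro s hs
        exact ⟨⟨s, hS2 hs⟩, rfl⟩)]
    have e1 : N.subtype '' (Z.subgroupOf N : Set N) = ((N ⊓ Z : Subgroup G) : Set G) := by
      ext x
      constructor
      · rintro ⟨z, hz, rfl⟩
        exact ⟨z.2, hz⟩
      · rintro ⟨hx1, hx2⟩
        exact ⟨⟨x, hx1⟩, hx2, rfl⟩
    rw [e1]
    refine le_antisymm ?_ hS3
    rw [Subgroup.closure_le]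
    rintro x (hx | hx)
    · exact hS2 hx
    · exact hx.1

end Pool.Agent.W393.LR
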